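import Pool.Agent.KhN.Up

/-!
# The upper bound for snowflakes: conclusion
-/

set_option autoImplicit false

namespace Pool.Agent.KhN

open Finset Pool.Agent.MP_12e089_an

variable {M Ω : Type} [Fintype Ω] [Fintype M] [DecidableEq M]

omit [DecidableEq M] in
theorem W1_nonneg {ρ : M → M → ℝ} (hρ : IsMet ρ) (μ ν : M → ℝ) : 0 ≤ W1 ρ μ ν := by
  rw [W1_eq]
  refine Real.sInf_nonneg ?_
  rintro c ⟨π, h, rfl⟩
  exact Finset.sum_nonneg fun x _ => Finset.sum_nonneg fun y _ =>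
    mul_nonneg (h.nonneg x y) (hρ.nonneg x y)

omit [Fintype M] in
theorem unif_nonneg (s : ℕ) (S : Finset M) (x : M) : 0 ≤ unif s S x := by
  unfold unif
  split_ifs <;> positivity

omit [DecidableEq M] in
theorem XX_nonneg (en : M → Ω → Bool) (L : ℝ) (R : ℕ) (μ ν : M → ℝ) (w : Fin (4 ^ R) → Ω) :
    0 ≤ XX en L R μ ν w := by
  unfold XX
  exact Finset.sum_nonneg fun j _ => mul_nonneg (rr_nonneg _ _ _)
    (Finset.sum_nonneg fun Q _ => abs_nonneg _)

/-- For a good sample the Wasserstein distance is bounded by the features. -/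
theorem W1_le_XX [Nonempty Ω] {ρ : M → M → ℝ} (hρ : IsMet ρ) (en : M → Ω → Bool) {K0 : ℝ}
    (hK : 0 ≤ K0) (h2 : ∀ x y, ρ x y ≤ K0 * Real.sqrt (hammingDist (en x) (en y))) {L : ℝ}
    (hL : 1 ≤ L) {R : ℕ} (hR : 2 * L * Fintype.card Ω < 4 ^ R) {s : ℕ} (hs : 0 < s)
    {S T : Finset M} (hS : S.card = s) (hT : T.card = s) (w : Fin (4 ^ R) → Ω)
    (hw : ∀ x ∈ S, ∀ y ∈ T, ¬ Bad en L R x y w) :
    W1 ρ (unif s S) (unif s T) ≤ K0 * XX en L R (unif s S) (unif s T) w := by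
  classical
  obtain ⟨π, hπ, hπ2⟩ := greedy (lb en w) R (lb_nest en w) (lb_zero en w)
    (unif_nonneg s S) (unif_nonneg s T) (by rw [sum_unif hs hS, sum_unif hs hT])
  have hW : W1 ρ (unif s S) (unif s T) ≤ cost ρ π := by
    rw [W1_eq]
    exact csInf_le (bdd hρ _ _) ⟨π, hπ, rfl⟩
  refine hW.trans ?_
  -- the support of the coupling
  have hsupp : ∀ x y, π x y ≠ 0 → x ∈ S ∧ y ∈ T := by
    intro x y hxy
    constructor
    · by_contra hx
      have h3 := hπ.row x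
      rw [unif, if_neg hx, Finset.sum_eq_zero_iff_of_nonneg (fun y _ => hπ.nonneg x y)] at h3
      exact hxy (h3 y (Finset.mem_univ y))
    · by_contra hy
      have h3 := hπ.col y
      rw [unif, if_neg hy, Finset.sum_eq_zero_iff_of_nonneg (fun x _ => hπ.nonneg x y)] at h3
      exact hxy (h3 x (Finset.mem_univ x))
  have h3 : cost ρ π ≤ ∑ x, ∑ y, π x y * (K0 * ∑ j ∈ range R, rr L (Fintype.card Ω) j *
      (if lb en w (j + 1) x = lb en w (j + 1) y then 0 else 1)) := by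
    unfold cost
    refine Finset.sum_le_sum fun x _ => Finset.sum_le_sum fun y _ => ?_
    by_cases hxy : π x y = 0
    · rw [hxy, zero_mul, zero_mul]
    · obtain ⟨hx, hy⟩ := hsupp x y hxy
      refine mul_le_mul_of_nonneg_left ?_ (hπ.nonneg x y)
      exact (h2 x y).trans (mul_le_mul_of_nonneg_left (dist_le en hL hR x y w (hw x hx y hy)) hK)
  refine h3.trans ?_
  have h4 : ∑ x, ∑ y, π x y * (K0 * ∑ j ∈ range R, rr L (Fintype.card Ω) j *
      (if lb en w (j + 1) x = lb en w (j + 1) y then 0 else 1)) =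
        K0 * ∑ j ∈ range R, rr L (Fintype.card Ω) j * sepm (lb en w (j + 1)) π := by
    have h5 : ∀ x y, π x y * (K0 * ∑ j ∈ range R, rr L (Fintype.card Ω) j *
        (if lb en w (j + 1) x = lb en w (j + 1) y then 0 else 1)) =
          ∑ j ∈ range R, K0 * (rr L (Fintype.card Ω) j *
            (if lb en w (j + 1) x = lb en w (j + 1) y then 0 else π x y)) := by
      intro x y
      rw [Finset.mul_sum, Finset.mul_sum]
      refine Finset.sum_congr rfl fun j _ => ?_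
      split_ifs <;> ring
    simp only [h5]
    rw [Finset.mul_sum]
    have h6 : ∀ x, ∑ y, ∑ j ∈ range R, K0 * (rr L (Fintype.card Ω) j *
        (if lb en w (j + 1) x = lb en w (j + 1) y then 0 else π x y)) =
          ∑ j ∈ range R, ∑ y, K0 * (rr L (Fintype.card Ω) j *
            (if lb en w (j + 1) x = lb en w (j + 1) y then 0 else π x y)) :=
      fun x => Finset.sum_comm
    simp only [h6]
    rw [Finset.sum_comm]
    refine Finset.sum_congr rfl fun j _ => ?_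
    unfold sepm
    rw [Finset.mul_sum, Finset.mul_sum]
    refine Finset.sum_congr rfl fun x _ => ?_
    rw [Finset.mul_sum, Finset.mul_sum]
  rw [h4]
  refine mul_le_mul_of_nonneg_left ?_ hK
  unfold XX
  refine Finset.sum_le_sum fun j hj => mul_le_mul_of_nonneg_left ?_ (rr_nonneg _ _ _)
  refine (hπ2 (j + 1) (Finset.mem_range.1 hj)).trans ?_
  unfold exc
  exact Finset.sum_le_sum fun Q _ => max_le (le_abs_self _) (abs_nonneg _)

/-- The lower bound for the average difference. -/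
theorem W1_le_av [Nonempty Ω] {ρ : M → M → ℝ} (hρ : IsMet ρ) (en : M → Ω → Bool) {K0 : ℝ}
    (hK : 0 ≤ K0) (h2 : ∀ x y, ρ x y ≤ K0 * Real.sqrt (hammingDist (en x) (en y))) {s : ℕ}
    (hs : 0 < s) {R : ℕ} (hR : 2 * (1 + 2 * Real.log s) * Fintype.card Ω < 4 ^ R)
    {S T : Finset M} (hS : S.card = s) (hT : T.card = s) :
    W1 ρ (unif s S) (unif s T) ≤
      2 * K0 * av (XX en (1 + 2 * Real.log s) R (unif s S) (unif s T)) := by
  classical
  have hs1 : (1 : ℝ) ≤ s := by exact_mod_cast hs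
  have hlog : 0 ≤ Real.log s := Real.log_nonneg hs1
  set L : ℝ := 1 + 2 * Real.log s with hLdef
  have hL : 1 ≤ L := by linarith
  have hW := W1_nonneg hρ (unif s S) (unif s T)
  have h3 : ∀ w, W1 ρ (unif s S) (unif s T) + (-W1 ρ (unif s S) (unif s T)) *
      (∑ x ∈ S, ∑ y ∈ T, if Bad en L R x y w then (1 : ℝ) else 0) ≤
      K0 * XX en L R (unif s S) (unif s T) w := by
    intro w
    by_cases hw : ∀ x ∈ S, ∀ y ∈ T, ¬ Bad en L R x y w
    · have h4 : ∑ x ∈ S, ∑ y ∈ T, (if Bad en L R x y w then (1 : ℝ) else 0) = 0 :=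
        Finset.sum_eq_zero fun x hx => Finset.sum_eq_zero fun y hy => if_neg (hw x hx y hy)
      rw [h4, mul_zero, add_zero]
      exact W1_le_XX hρ en hK h2 hL hR hs hS hT w hw
    · push Not at hw
      obtain ⟨x, hx, y, hy, hb⟩ := hw
      have h5 : (1 : ℝ) ≤ ∑ x ∈ S, ∑ y ∈ T, (if Bad en L R x y w then (1 : ℝ) else 0) := by
        have h6 : ∀ x y, (0 : ℝ) ≤ if Bad en L R x y w then 1 else 0 := fun x y => by
          split_ifs <;> norm_num
        refine le_trans ?_ (Finset.single_le_sum (f := fun x => ∑ y ∈ T,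
          (if Bad en L R x y w then (1 : ℝ) else 0)) (fun x _ => Finset.sum_nonneg fun y _ =>
            h6 x y) hx)
        refine le_trans ?_ (Finset.single_le_sum (f := fun y =>
          (if Bad en L R x y w then (1 : ℝ) else 0)) (fun y _ => h6 x y) hy)
        rw [if_pos hb]
      have h7 := mul_nonneg hK (XX_nonneg en L R (unif s S) (unif s T) w)
      nlinarith
  have h4 := av_mono h3
  have h5 : av (fun w : Fin (4 ^ R) → Ω => W1 ρ (unif s S) (unif s T) +
      (-W1 ρ (unif s S) (unif s T)) *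
      (∑ x ∈ S, ∑ y ∈ T, if Bad en L R x y w then (1 : ℝ) else 0)) =
        W1 ρ (unif s S) (unif s T) + (-W1 ρ (unif s S) (unif s T)) *
          ∑ x ∈ S, ∑ y ∈ T, av (fun w => if Bad en L R x y w then (1 : ℝ) else 0) := by
    have h6 : av (fun w : Fin (4 ^ R) → Ω => W1 ρ (unif s S) (unif s T) +
        (-W1 ρ (unif s S) (unif s T)) *
        (∑ x ∈ S, ∑ y ∈ T, if Bad en L R x y w then (1 : ℝ) else 0)) =
          av (fun _ : Fin (4 ^ R) → Ω => W1 ρ (unif s S) (unif s T)) +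
            av (fun w : Fin (4 ^ R) → Ω => (-W1 ρ (unif s S) (unif s T)) *
              (∑ x ∈ S, ∑ y ∈ T, if Bad en L R x y w then (1 : ℝ) else 0)) := by
      unfold av
      rw [Finset.sum_add_distrib, add_div]
    rw [h6, av_const, av_mul, av_sum]
    simp only [av_sum]
  rw [h5, av_mul] at h4
  have h6 : ∑ x ∈ S, ∑ y ∈ T, av (fun w : Fin (4 ^ R) → Ω =>
      if Bad en L R x y w then (1 : ℝ) else 0) ≤ 1 / 2 := by
    have h7 : ∑ x ∈ S, ∑ y ∈ T, av (fun w : Fin (4 ^ R) → Ω =>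
        if Bad en L R x y w then (1 : ℝ) else 0) ≤ (s : ℝ) * (s * Real.exp (-L)) := by
      calc _ ≤ ∑ x ∈ S, ∑ y ∈ T, Real.exp (-L) :=
            Finset.sum_le_sum fun x _ => Finset.sum_le_sum fun y _ => av_bad en L R x y
        _ = (s : ℝ) * (s * Real.exp (-L)) := by
            rw [Finset.sum_const, Finset.sum_const, hS, hT, nsmul_eq_mul, nsmul_eq_mul]
    refine h7.trans ?_
    have h8 : Real.exp (-L) = Real.exp (-1) * ((s : ℝ) ^ 2)⁻¹ := by
      rw [hLdef, show -(1 + 2 * Real.log s) = -1 + -(2 * Real.log s) by ring, Real.exp_add,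
        Real.exp_neg (2 * Real.log s)]
      congr 2
      rw [two_mul, Real.exp_add, Real.exp_log (by linarith), sq]
    rw [h8]
    have h9 : (s : ℝ) * (s * (Real.exp (-1) * ((s : ℝ) ^ 2)⁻¹)) = Real.exp (-1) := by
      field_simp
    rw [h9, Real.exp_neg, inv_eq_one_div]
    have h10 : (2 : ℝ) ≤ Real.exp 1 := by
      have := Real.add_one_le_exp (1 : ℝ)
      linarith
    exact one_div_le_one_div_of_le (by norm_num) h10
  nlinarith

/-- Spaces of uniform measures for metrics comparable with the square root of a cut metric. -/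
theorem embed_snow [Nonempty Ω] {ρ : M → M → ℝ} (hρ : IsMet ρ) (en : M → Ω → Bool) {K0 : ℝ}
    (hK : 1 ≤ K0) (h1 : ∀ x y, Real.sqrt (hammingDist (en x) (en y)) ≤ ρ x y)
    (h2 : ∀ x y, ρ x y ≤ K0 * Real.sqrt (hammingDist (en x) (en y))) {s : ℕ} (hs : 1 ≤ s) :
    EmbedsL1 (fun μ ν : {μ : M → ℝ // ∃ S : Finset M, S.card = s ∧ μ = unif s S} =>
      W1 ρ μ.1 ν.1) (64 * K0 * Real.sqrt (1 + Real.log s)) := by
  classical
  have hs1 : (1 : ℝ) ≤ s := by exact_mod_cast hs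
  have hlog : 0 ≤ Real.log s := Real.log_nonneg hs1
  set L : ℝ := 1 + 2 * Real.log s with hLdef
  have hL : 1 ≤ L := by linarith
  obtain ⟨R, hR⟩ := pow_unbounded_of_one_lt (2 * L * Fintype.card Ω) (by norm_num : (1 : ℝ) < 4)
  obtain ⟨E, hE⟩ := exists_toLOne ((Fin (4 ^ R) → Ω) × Fin R × (Fin (4 ^ R) → Bool))
  let u : (M → ℝ) → ((Fin (4 ^ R) → Ω) × Fin R × (Fin (4 ^ R) → Bool)) → ℝ := fun μ p =>
    rr L (Fintype.card Ω) p.2.1 / (Fintype.card Ω : ℝ) ^ (4 ^ R) *
      cm (lb en p.1 ((p.2.1 : ℕ) + 1)) μ p.2.2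
  have hu : ∀ μ ν : M → ℝ, l1 (u μ) (u ν) = av (XX en L R μ ν) := by
    intro μ ν
    unfold l1 av XX
    rw [Fintype.sum_prod_type, Finset.sum_div]
    refine Finset.sum_congr rfl fun w _ => ?_
    rw [Fintype.sum_prod_type, Finset.sum_div, Finset.sum_range]
    refine Finset.sum_congr rfl fun j _ => ?_
    rw [mul_div_right_comm, Finset.mul_sum]
    refine Finset.sum_congr rfl fun Q _ => ?_
    show |rr L (Fintype.card Ω) j / (Fintype.card Ω : ℝ) ^ (4 ^ R) * cm (lb en w ((j : ℕ) + 1)) μ Q -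
      rr L (Fintype.card Ω) j / (Fintype.card Ω : ℝ) ^ (4 ^ R) * cm (lb en w ((j : ℕ) + 1)) ν Q| = _
    rw [← mul_sub, abs_mul, abs_of_nonneg (div_nonneg (rr_nonneg _ _ _) (by positivity))]
  have hsq : Real.sqrt (2 * L) ≤ 2 * Real.sqrt (1 + Real.log s) := by
    rw [show (2 : ℝ) * Real.sqrt (1 + Real.log s) = Real.sqrt (4 * (1 + Real.log s)) by
      rw [Real.sqrt_mul (by norm_num), show (4 : ℝ) = 2 ^ 2 by norm_num,
        Real.sqrt_sq (by norm_num)]]
    refine Real.sqrt_le_sqrt ?_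
    linarith
  have hsq1 : 1 ≤ Real.sqrt (1 + Real.log s) := by
    rw [Real.one_le_sqrt]
    linarith
  refine ⟨by nlinarith, fun μ => E (u μ.1), 1 / (2 * K0), by positivity, fun μ ν => ?_⟩
  obtain ⟨S, hS, hμ⟩ := μ.2
  obtain ⟨T, hT, hν⟩ := ν.2
  rw [hE, hu]
  constructor
  · have h3 := W1_le_av hρ en (by linarith) h2 hs hR hS hT
    dsimp only
    rw [hμ, hν, one_div, ← div_eq_inv_mul, div_le_iff₀ (by positivity)]
    linarith
  · have hne : {c | ∃ π, Cpl μ.1 ν.1 π ∧ c = cost ρ π}.Nonempty := by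
      obtain ⟨π, hπ, -⟩ := greedy (fun _ (_ : M) => (0 : Fin 1)) 0 (fun _ _ _ _ => rfl)
        (fun _ _ => rfl) (unif_nonneg s S) (unif_nonneg s T)
        (by rw [sum_unif hs hS, sum_unif hs hT])
      rw [hμ, hν]
      exact ⟨_, π, hπ, rfl⟩
    have h3 : av (XX en L R μ.1 ν.1) ≤ 16 * Real.sqrt (2 * L) * W1 ρ μ.1 ν.1 := by
      have h4 : 0 < 16 * Real.sqrt (2 * L) := by positivity
      rw [← div_le_iff₀' h4, W1_eq]
      refine le_csInf hne ?_
      rintro c ⟨π, hπ, rfl⟩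
      rw [div_le_iff₀' h4]
      refine (av_XX_le en (by linarith) R hπ).trans (mul_le_mul_of_nonneg_left ?_ h4.le)
      unfold cost
      exact Finset.sum_le_sum fun x _ => Finset.sum_le_sum fun y _ =>
        mul_le_mul_of_nonneg_left (h1 x y) (hπ.nonneg x y)
    refine h3.trans ?_
    have hW := W1_nonneg hρ μ.1 ν.1
    have h5 : 64 * K0 * Real.sqrt (1 + Real.log s) * (1 / (2 * K0)) =
        32 * Real.sqrt (1 + Real.log s) := by
      field_simp
      ring
    rw [h5]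
    refine mul_le_mul_of_nonneg_right ?_ hW
    linarith

/-- The upper bound for the `ℓ_2` metric. -/
theorem up2 {Δ d s : ℕ} (hΔ : 1 ≤ Δ) (hd : 1 ≤ d) (hs : 1 ≤ s) :
    EmbedsL1 (fun μ ν : Y Δ d s => W1 rho2 μ.1 ν.1)
      (64 * Real.sqrt Δ * Real.sqrt (1 + Real.log s)) := by
  classical
  have hne : Nonempty (Fin d × Fin Δ) := ⟨(⟨0, hd⟩, ⟨0, hΔ⟩)⟩
  have hΔ1 : (1 : ℝ) ≤ Δ := by exact_mod_cast hΔ
  let en : Grid Δ d → Fin d × Fin Δ → Bool :=
    enc Δ (fun (i : Fin d) (x : Grid Δ d) => ((x i : Fin Δ) : ℕ))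
  have hen : ∀ x y : Grid Δ d, (hammingDist (en x) (en y) : ℝ) = rho1 x y := fun x y =>
    ham_enc Δ _ (fun i x => (x i).2.le) x y
  refine embed_snow (M := Grid Δ d) isMet_rho2 en (Real.one_le_sqrt.2 hΔ1) ?_ ?_ hs
  · intro x y
    rw [hen]
    unfold rho1 rho2
    refine Real.sqrt_le_sqrt (Finset.sum_le_sum fun i _ => ?_)
    have h1 : |(((x i : Fin Δ) : ℕ) : ℝ) - ((y i : Fin Δ) : ℕ)| =
        ((|((x i : ℕ) : ℤ) - ((y i : ℕ) : ℤ)| : ℤ) : ℝ) := by
      push_cast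
      rfl
    have h2 : (((x i : Fin Δ) : ℕ) : ℝ) - ((y i : Fin Δ) : ℕ) =
        ((((x i : ℕ) : ℤ) - ((y i : ℕ) : ℤ) : ℤ) : ℝ) := by
      push_cast
      rfl
    rw [← sq_abs, h1]
    have h3 : |((x i : ℕ) : ℤ) - ((y i : ℕ) : ℤ)| ≤ |((x i : ℕ) : ℤ) - ((y i : ℕ) : ℤ)| ^ 2 := by
      have h4 := abs_nonneg (((x i : ℕ) : ℤ) - ((y i : ℕ) : ℤ))
      generalize |((x i : ℕ) : ℤ) - ((y i : ℕ) : ℤ)| = a at *
      rcases h4.eq_or_lt with h5 | h5
      · rw [← h5]
        norm_num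
      · nlinarith
    exact_mod_cast h3
  · intro x y
    rw [hen, ← Real.sqrt_mul (by positivity)]
    unfold rho1 rho2
    refine Real.sqrt_le_sqrt ?_
    rw [Finset.mul_sum]
    refine Finset.sum_le_sum fun i _ => ?_
    rw [← sq_abs, sq]
    refine mul_le_mul_of_nonneg_right ?_ (abs_nonneg _)
    have h1 : (((x i : Fin Δ) : ℕ) : ℝ) ≤ Δ := by exact_mod_cast (x i).2.le
    have h2 : (((y i : Fin Δ) : ℕ) : ℝ) ≤ Δ := by exact_mod_cast (y i).2.le
    have h3 : (0 : ℝ) ≤ (((x i : Fin Δ) : ℕ) : ℝ) := by positivity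
    have h4 : (0 : ℝ) ≤ (((y i : Fin Δ) : ℕ) : ℝ) := by positivity
    rw [abs_le]
    constructor <;> linarith

end Pool.Agent.KhN
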