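import Pool.Agent.KhN.Cube

/-!
# Complements: the Wasserstein distance depends on the difference only
-/

set_option autoImplicit false

namespace Pool.Agent.KhN

open Finset Pool.Agent.MP_12e089_an Pointwise

variable {M : Type} [Fintype M] [DecidableEq M]

/-- The matrix `π` is a coupling of `a` and `b`. -/
structure Cpl (a b : M → ℝ) (π : M → M → ℝ) : Prop where
  nonneg : ∀ x y, 0 ≤ π x y
  row : ∀ x, ∑ y, π x y = a x
  col : ∀ y, ∑ x, π x y = b y

/-- The cost. -/
def cost (ρ π : M → M → ℝ) : ℝ := ∑ x, ∑ y, π x y * ρ x y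

/-- The point mass. -/
def dl (p : M) : M → ℝ := fun x => if x = p then 1 else 0

theorem sum_dl (p : M) : ∑ x, dl p x = 1 := by
  unfold dl
  simp

theorem sum_dl_mul (p : M) (φ : M → ℝ) : ∑ x, dl p x * φ x = φ p := by
  unfold dl
  simp

/-- One point mass can be cancelled. -/
theorem cancel_one {ρ : M → M → ℝ} (hρ : IsMet ρ) {a b : M → ℝ} (p : M) {c : ℝ} (hc : 0 ≤ c)
    (ha : 0 ≤ a p) (hb : 0 ≤ b p) {π : M → M → ℝ}
    (hπ : Cpl (fun x => a x + c * dl p x) (fun x => b x + c * dl p x) π) :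
    ∃ π', Cpl a b π' ∧ cost ρ π' ≤ cost ρ π := by
  have hdp : dl p p = 1 := by unfold dl; simp
  have hd0 : ∀ x, 0 ≤ dl p x := fun x => by unfold dl; split_ifs <;> norm_num
  by_cases hP : c ≤ π p p
  · refine ⟨fun x y => π x y - c * (dl p x * dl p y), ⟨?_, ?_, ?_⟩, ?_⟩
    · intro x y
      by_cases hx : x = p
      · by_cases hy : y = p
        · subst hx
          subst hy
          simp only [hdp]
          linarith
        · have h1 : dl p y = 0 := if_neg hy
          simp only [h1, mul_zero, sub_zero]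
          exact hπ.nonneg x y
      · have h1 : dl p x = 0 := if_neg hx
        simp only [h1, zero_mul, mul_zero, sub_zero]
        exact hπ.nonneg x y
    · intro x
      have h1 := hπ.row x
      rw [Finset.sum_sub_distrib, h1, ← Finset.mul_sum, ← Finset.mul_sum, sum_dl]
      ring
    · intro y
      have h1 := hπ.col y
      rw [Finset.sum_sub_distrib, h1, ← Finset.mul_sum, ← Finset.sum_mul, sum_dl]
      ring
    · unfold cost
      refine Finset.sum_le_sum fun x _ => Finset.sum_le_sum fun y _ => ?_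
      refine mul_le_mul_of_nonneg_right ?_ (hρ.nonneg x y)
      have h1 : 0 ≤ c * (dl p x * dl p y) := mul_nonneg hc (mul_nonneg (hd0 x) (hd0 y))
      linarith
  · push Not at hP
    have hrow := hπ.row p
    have hcol := hπ.col p
    rw [hdp, mul_one] at hrow hcol
    set P := π p p with hPdef
    have hP0 : 0 ≤ P := hπ.nonneg p p
    set U : ℝ := a p + c - P with hU
    set V : ℝ := b p + c - P with hV
    have hU0 : 0 < U := by linarith
    have hV0 : 0 < V := by linarith
    -- the probability vectors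
    let α : M → ℝ := fun x => (π x p - P * dl p x) / V
    let β : M → ℝ := fun y => (π p y - P * dl p y) / U
    have hα1 : ∑ x, α x = 1 := by
      simp only [α]
      rw [← Finset.sum_div, Finset.sum_sub_distrib, ← Finset.mul_sum, sum_dl, hcol, mul_one,
        div_self hV0.ne']
    have hβ1 : ∑ y, β y = 1 := by
      simp only [β]
      rw [← Finset.sum_div, Finset.sum_sub_distrib, ← Finset.mul_sum, sum_dl, hrow, mul_one,
        div_self hU0.ne']
    have hαp : α p = 0 := by
      simp only [α, hdp, ← hPdef]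
      simp
    have hβp : β p = 0 := by
      simp only [β, hdp, ← hPdef]
      simp
    have hα : ∀ x, x ≠ p → α x = π x p / V := by
      intro x hx
      have h1 : dl p x = 0 := if_neg hx
      simp only [α, h1, mul_zero, sub_zero]
    have hβ : ∀ y, y ≠ p → β y = π p y / U := by
      intro y hy
      have h1 : dl p y = 0 := if_neg hy
      simp only [β, h1, mul_zero, sub_zero]
    have hα0 : ∀ x, 0 ≤ α x := by
      intro x
      by_cases hx : x = p
      · rw [hx, hαp]
      · rw [hα x hx]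
        exact div_nonneg (hπ.nonneg _ _) hV0.le
    have hβ0 : ∀ x, 0 ≤ β x := by
      intro x
      by_cases hx : x = p
      · rw [hx, hβp]
      · rw [hβ x hx]
        exact div_nonneg (hπ.nonneg _ _) hU0.le
    set θ : ℝ := c - P with hθ
    have hθ0 : 0 < θ := by linarith
    refine ⟨fun x y => π x y + θ * (α x * β y - dl p x * β y - α x * dl p y) -
      P * (dl p x * dl p y), ⟨?_, ?_, ?_⟩, ?_⟩
    · intro x y
      by_cases hx : x = p
      · by_cases hy : y = p
        · subst hx
          subst hy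
          simp only [hdp, hαp, hβp, ← hPdef]
          linarith
        · have h1 : dl p y = 0 := if_neg hy
          subst hx
          simp only [h1, hdp, hαp, hβ y hy]
          have h2 : π x y + θ * (0 * (π x y / U) - 1 * (π x y / U) - 0 * 0) - P * (1 * 0) =
              π x y * (U - θ) / U := by
            field_simp
            ring
          rw [h2]
          refine div_nonneg (mul_nonneg (hπ.nonneg _ _) ?_) hU0.le
          linarith
      · have h3 : dl p x = 0 := if_neg hx
        by_cases hy : y = p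
        · subst hy
          simp only [h3, hdp, hβp, hα x hx]
          have h2 : π x y + θ * (π x y / V * 0 - 0 * 0 - π x y / V * 1) - P * (0 * 1) =
              π x y * (V - θ) / V := by
            field_simp
            ring
          rw [h2]
          refine div_nonneg (mul_nonneg (hπ.nonneg _ _) ?_) hV0.le
          linarith
        · have h1 : dl p y = 0 := if_neg hy
          simp only [h1, h3]
          have h4 := hπ.nonneg x y
          have h5 := mul_nonneg hθ0.le (mul_nonneg (hα0 x) (hβ0 y))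
          nlinarith
    · intro x
      have h1 := hπ.row x
      have h2 : ∀ y, π x y + θ * (α x * β y - dl p x * β y - α x * dl p y) -
          P * (dl p x * dl p y) = π x y + (θ * (α x - dl p x)) * β y -
            (θ * α x + P * dl p x) * dl p y := fun y => by ring
      simp only [h2]
      rw [Finset.sum_sub_distrib, Finset.sum_add_distrib, h1, ← Finset.mul_sum, ← Finset.mul_sum,
        sum_dl, hβ1]
      simp only [hθ]
      ring
    · intro y
      have h1 := hπ.col y
      have h2 : ∀ x, π x y + θ * (α x * β y - dl p x * β y - α x * dl p y) -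
          P * (dl p x * dl p y) = π x y + α x * (θ * (β y - dl p y)) -
            dl p x * (θ * β y + P * dl p y) := fun x => by ring
      simp only [h2]
      rw [Finset.sum_sub_distrib, Finset.sum_add_distrib, h1, ← Finset.sum_mul, ← Finset.sum_mul,
        sum_dl, hα1]
      simp only [hθ]
      ring
    · unfold cost
      have h1 : ∑ x, ∑ y, (π x y + θ * (α x * β y - dl p x * β y - α x * dl p y) -
          P * (dl p x * dl p y)) * ρ x y = ∑ x, ∑ y, π x y * ρ x y +
            θ * (∑ x, ∑ y, α x * β y * ρ x y - ∑ y, β y * ρ p y - ∑ x, α x * ρ x p) := by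
        have h2 : ∑ y, β y * ρ p y = ∑ x, ∑ y, dl p x * β y * ρ x y := by
          have h3 : ∀ x, ∑ y, dl p x * β y * ρ x y = dl p x * ∑ y, β y * ρ x y := by
            intro x
            rw [Finset.mul_sum]
            exact Finset.sum_congr rfl fun y _ => by ring
          simp only [h3]
          rw [sum_dl_mul p (fun x => ∑ y, β y * ρ x y)]
        have h4 : ∑ x, α x * ρ x p = ∑ x, ∑ y, α x * dl p y * ρ x y := by
          refine Finset.sum_congr rfl fun x _ => ?_
          have h3 : ∑ y, α x * dl p y * ρ x y = ∑ y, dl p y * (α x * ρ x y) :=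
            Finset.sum_congr rfl fun y _ => by ring
          rw [h3, sum_dl_mul p (fun y => α x * ρ x y)]
        have h5 : ∑ x, ∑ y, P * (dl p x * dl p y) * ρ x y = 0 := by
          refine Finset.sum_eq_zero fun x _ => Finset.sum_eq_zero fun y _ => ?_
          by_cases hx : x = p
          · by_cases hy : y = p
            · rw [hx, hy, hρ.self, mul_zero]
            · have h1 : dl p y = 0 := if_neg hy
              rw [h1]
              ring
          · have h1 : dl p x = 0 := if_neg hx
            rw [h1]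
            ring
        rw [h2, h4, mul_sub, mul_sub, ← sub_zero (∑ x, ∑ y, π x y * ρ x y + _), ← h5]
        simp only [Finset.mul_sum, ← Finset.sum_add_distrib, ← Finset.sum_sub_distrib]
        exact Finset.sum_congr rfl fun x _ => Finset.sum_congr rfl fun y _ => by ring
      have h2 : ∑ x, ∑ y, α x * β y * ρ x y ≤ ∑ y, β y * ρ p y + ∑ x, α x * ρ x p := by
        calc ∑ x, ∑ y, α x * β y * ρ x y ≤ ∑ x, ∑ y, (α x * (β y * ρ p y) + α x * ρ x p * β y) := by
              refine Finset.sum_le_sum fun x _ => Finset.sum_le_sum fun y _ => ?_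
              have h3 := hρ.tri x p y
              have h4 := mul_nonneg (hα0 x) (hβ0 y)
              nlinarith [mul_le_mul_of_nonneg_left h3 h4]
          _ = ∑ y, β y * ρ p y + ∑ x, α x * ρ x p := by
              have h5 : ∀ x, ∑ y, (α x * (β y * ρ p y) + α x * ρ x p * β y) =
                  α x * (∑ y, β y * ρ p y) + α x * ρ x p := by
                intro x
                rw [Finset.sum_add_distrib, ← Finset.mul_sum, ← Finset.mul_sum, hβ1, mul_one]
              simp only [h5]
              rw [Finset.sum_add_distrib, ← Finset.sum_mul, hα1, one_mul]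
      rw [h1]
      nlinarith

/-- Common mass can be cancelled. -/
theorem cancel {ρ : M → M → ℝ} (hρ : IsMet ρ) {a b c : M → ℝ} (ha : ∀ x, 0 ≤ a x)
    (hb : ∀ x, 0 ≤ b x) (hc : ∀ x, 0 ≤ c x) {π : M → M → ℝ}
    (hπ : Cpl (fun x => a x + c x) (fun x => b x + c x) π) :
    ∃ π', Cpl a b π' ∧ cost ρ π' ≤ cost ρ π := by
  have key : ∀ (T : Finset M) (π : M → M → ℝ),
      Cpl (fun x => a x + ∑ p ∈ T, c p * dl p x) (fun x => b x + ∑ p ∈ T, c p * dl p x) π →
      ∃ π', Cpl a b π' ∧ cost ρ π' ≤ cost ρ π := by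
    intro T
    induction T using Finset.induction_on with
    | empty =>
      intro π hπ
      simp only [Finset.sum_empty, add_zero] at hπ
      exact ⟨π, hπ, le_rfl⟩
    | insert p T hp ih =>
      intro π hπ
      have hd0 : ∀ q x, 0 ≤ dl q x := fun q (x : M) => by unfold dl; split_ifs <;> norm_num
      have h0 : 0 ≤ ∑ q ∈ T, c q * dl q p :=
        Finset.sum_nonneg fun q _ => mul_nonneg (hc q) (hd0 q p)
      have h1 : Cpl (fun x => (a x + ∑ q ∈ T, c q * dl q x) + c p * dl p x)
          (fun x => (b x + ∑ q ∈ T, c q * dl q x) + c p * dl p x) π := by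
        have h2 : ∀ x, ∑ q ∈ insert p T, c q * dl q x = c p * dl p x + ∑ q ∈ T, c q * dl q x :=
          fun x => Finset.sum_insert hp
        refine ⟨hπ.nonneg, fun x => ?_, fun y => ?_⟩
        · rw [hπ.row x, h2]
          ring
        · rw [hπ.col y, h2]
          ring
      obtain ⟨π', hπ', hle⟩ := cancel_one hρ p (hc p) (add_nonneg (ha p) h0)
        (add_nonneg (hb p) h0) h1
      obtain ⟨π'', hπ'', hle'⟩ := ih π' hπ'
      exact ⟨π'', hπ'', hle'.trans hle⟩
  refine key Finset.univ π ?_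
  have h1 : ∀ x, ∑ p, c p * dl p x = c x := by
    intro x
    have h2 : ∀ p, c p * dl p x = dl x p * c p := by
      intro p
      unfold dl
      by_cases h : x = p
      · rw [if_pos h, if_pos h.symm]
        ring
      · rw [if_neg h, if_neg (Ne.symm h)]
        ring
    simp only [h2]
    exact sum_dl_mul x c
  refine ⟨hπ.nonneg, fun x => ?_, fun y => ?_⟩
  · rw [hπ.row x, h1]
  · rw [hπ.col y, h1]

omit [DecidableEq M] in
theorem W1_eq (ρ : M → M → ℝ) (a b : M → ℝ) :
    W1 ρ a b = sInf {c | ∃ π, Cpl a b π ∧ c = cost ρ π} := by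
  unfold W1
  congr 1
  ext c
  constructor
  · rintro ⟨π, h1, h2, h3, h4⟩
    exact ⟨π, ⟨h1, h2, h3⟩, h4⟩
  · rintro ⟨π, ⟨h1, h2, h3⟩, h4⟩
    exact ⟨π, h1, h2, h3, h4⟩

omit [DecidableEq M] in
theorem bdd {ρ : M → M → ℝ} (hρ : IsMet ρ) (a b : M → ℝ) :
    BddBelow {c | ∃ π, Cpl a b π ∧ c = cost ρ π} := by
  refine ⟨0, ?_⟩
  rintro c ⟨π, h, rfl⟩
  exact Finset.sum_nonneg fun x _ => Finset.sum_nonneg fun y _ =>
    mul_nonneg (h.nonneg x y) (hρ.nonneg x y)

/-- The Wasserstein distance depends on the difference only. -/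
theorem W1_add {ρ : M → M → ℝ} (hρ : IsMet ρ) {a b c : M → ℝ} (ha : ∀ x, 0 ≤ a x)
    (hb : ∀ x, 0 ≤ b x) (hc : ∀ x, 0 ≤ c x) :
    W1 ρ (fun x => a x + c x) (fun x => b x + c x) = W1 ρ a b := by
  rw [W1_eq, W1_eq]
  have hdown : ∀ u ∈ {c' | ∃ π, Cpl (fun x => a x + c x) (fun x => b x + c x) π ∧ c' = cost ρ π},
      ∃ v ∈ {c' | ∃ π, Cpl a b π ∧ c' = cost ρ π}, v ≤ u := by
    rintro u ⟨π, hπ, rfl⟩
    obtain ⟨π', hπ', hle⟩ := cancel hρ ha hb hc hπ
    exact ⟨_, ⟨π', hπ', rfl⟩, hle⟩
  have hup : ∀ u ∈ {c' | ∃ π, Cpl a b π ∧ c' = cost ρ π},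
      u ∈ {c' | ∃ π, Cpl (fun x => a x + c x) (fun x => b x + c x) π ∧ c' = cost ρ π} := by
    rintro u ⟨π, hπ, rfl⟩
    refine ⟨fun x y => π x y + dl x y * c x, ⟨?_, ?_, ?_⟩, ?_⟩
    · intro x y
      have h1 : 0 ≤ dl x y := by unfold dl; split_ifs <;> norm_num
      exact add_nonneg (hπ.nonneg x y) (mul_nonneg h1 (hc x))
    · intro x
      rw [Finset.sum_add_distrib, hπ.row x, ← Finset.sum_mul, sum_dl, one_mul]
    · intro y
      rw [Finset.sum_add_distrib, hπ.col y]
      congr 1
      have h2 : ∀ x, dl x y * c x = dl y x * c x := by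
        intro x
        unfold dl
        by_cases h : x = y
        · rw [if_pos h, if_pos h.symm]
        · rw [if_neg h, if_neg (Ne.symm h)]
      simp only [h2]
      exact sum_dl_mul y c
    · unfold cost
      refine Finset.sum_congr rfl fun x _ => Finset.sum_congr rfl fun y _ => ?_
      by_cases h : x = y
      · rw [h, hρ.self]
        ring
      · have h1 : dl x y = 0 := if_neg (Ne.symm h)
        simp only [h1]
        ring
  by_cases hne : {c' | ∃ π, Cpl a b π ∧ c' = cost ρ π}.Nonempty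
  · obtain ⟨u0, hu0⟩ := hne
    apply le_antisymm
    · refine le_csInf ⟨u0, hu0⟩ fun u hu => csInf_le (bdd hρ _ _) (hup u hu)
    · refine le_csInf ⟨u0, hup u0 hu0⟩ fun u hu => ?_
      obtain ⟨v, hv, hvu⟩ := hdown u hu
      exact (csInf_le (bdd hρ _ _) hv).trans hvu
  · rw [Set.not_nonempty_iff_eq_empty] at hne
    rw [hne]
    congr 1
    rw [Set.eq_empty_iff_forall_notMem]
    intro u hu
    obtain ⟨v, hv, -⟩ := hdown u hu
    rw [hne] at hv
    exact hv

omit [DecidableEq M] in
theorem W1_smul (ρ : M → M → ℝ) (a b : M → ℝ) {k : ℝ} (hk : 0 < k) :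
    W1 ρ (fun x => k * a x) (fun x => k * b x) = k * W1 ρ a b := by
  unfold W1
  rw [← smul_eq_mul, ← Real.sInf_smul_of_nonneg hk.le]
  congr 1
  ext c
  rw [Set.mem_smul_set]
  constructor
  · rintro ⟨π, h1, h2, h3, rfl⟩
    refine ⟨_, ⟨fun x y => k⁻¹ * π x y, ?_, ?_, ?_, rfl⟩, ?_⟩
    · intro x y
      exact mul_nonneg (by positivity) (h1 x y)
    · intro x
      rw [← Finset.mul_sum, h2, inv_mul_cancel_left₀ hk.ne']
    · intro y
      rw [← Finset.mul_sum, h3, inv_mul_cancel_left₀ hk.ne']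
    · rw [smul_eq_mul, Finset.mul_sum]
      refine Finset.sum_congr rfl fun x _ => ?_
      rw [Finset.mul_sum]
      refine Finset.sum_congr rfl fun y _ => ?_
      field_simp
  · rintro ⟨c', ⟨π, h1, h2, h3, rfl⟩, rfl⟩
    refine ⟨fun x y => k * π x y, ?_, ?_, ?_, ?_⟩
    · intro x y
      exact mul_nonneg hk.le (h1 x y)
    · intro x
      rw [← Finset.mul_sum, h2]
    · intro y
      rw [← Finset.mul_sum, h3]
    · rw [smul_eq_mul, Finset.mul_sum]
      refine Finset.sum_congr rfl fun x _ => ?_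
      rw [Finset.mul_sum]
      exact Finset.sum_congr rfl fun y _ => by ring

omit [DecidableEq M] in
theorem W1_symm {ρ : M → M → ℝ} (hρ : IsMet ρ) (a b : M → ℝ) : W1 ρ a b = W1 ρ b a := by
  unfold W1
  congr 1
  ext c
  constructor
  · rintro ⟨π, h1, h2, h3, rfl⟩
    refine ⟨fun x y => π y x, fun x y => h1 y x, h3, h2, ?_⟩
    rw [Finset.sum_comm]
    exact Finset.sum_congr rfl fun x _ => Finset.sum_congr rfl fun y _ => by rw [hρ.symm]
  · rintro ⟨π, h1, h2, h3, rfl⟩
    refine ⟨fun x y => π y x, fun x y => h1 y x, h3, h2, ?_⟩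
    rw [Finset.sum_comm]
    exact Finset.sum_congr rfl fun x _ => Finset.sum_congr rfl fun y _ => by rw [hρ.symm]

/-- The indicator. -/
def ind (S : Finset M) : M → ℝ := fun x => if x ∈ S then 1 else 0

theorem W1_unif (ρ : M → M → ℝ) {s : ℕ} (hs : 0 < s) (S S' : Finset M) :
    (s : ℝ) * W1 ρ (unif s S) (unif s S') = W1 ρ (ind S) (ind S') := by
  have hs0 : (0 : ℝ) < s := by exact_mod_cast hs
  rw [← W1_smul ρ _ _ hs0]
  have h : ∀ T : Finset M, (fun x => (s : ℝ) * unif s T x) = ind T := by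
    intro T
    funext x
    unfold unif ind
    split_ifs
    · field_simp
    · ring
  rw [h, h]

theorem W1_ind_compl {ρ : M → M → ℝ} (hρ : IsMet ρ) (S S' : Finset M) :
    W1 ρ (ind Sᶜ) (ind S'ᶜ) = W1 ρ (ind S) (ind S') := by
  have h0 : ∀ (T : Finset M) x, 0 ≤ ind T x := fun T x => by
    unfold ind
    split_ifs <;> norm_num
  have h1 : ∀ (T : Finset M) x, ind Tᶜ x = 1 - ind T x := by
    intro T x
    unfold ind
    by_cases h : x ∈ T
    · rw [if_pos h, if_neg (by simp [h])]
      ring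
    · rw [if_neg h, if_pos (by simp [h])]
      ring
  rw [W1_symm hρ (ind Sᶜ), ← W1_add hρ (h0 S'ᶜ) (h0 Sᶜ) (h0 S), ← W1_add hρ (h0 S) (h0 S')
    (h0 S'ᶜ)]
  congr 1
  · funext x
    rw [add_comm]
  · funext x
    rw [h1, h1]
    ring

/-- The spaces of uniform measures on `s` points and on `#M - s` points have the same
embeddings into `L_1`. -/
theorem compl {ρ : M → M → ℝ} (hρ : IsMet ρ) {s s' : ℕ} (hs : 0 < s) (hs' : 0 < s')
    (hM : s + s' = Fintype.card M) {D : ℝ}
    (hD : EmbedsL1 (fun μ ν : {μ : M → ℝ // ∃ S : Finset M, S.card = s' ∧ μ = unif s' S} =>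
      W1 ρ μ.1 ν.1) D) :
    EmbedsL1 (fun μ ν : {μ : M → ℝ // ∃ S : Finset M, S.card = s ∧ μ = unif s S} =>
      W1 ρ μ.1 ν.1) D := by
  obtain ⟨hD1, f, r, hr, hf⟩ := hD
  have hs0 : (0 : ℝ) < s := by exact_mod_cast hs
  have hs0' : (0 : ℝ) < s' := by exact_mod_cast hs'
  let Φ : {μ : M → ℝ // ∃ S : Finset M, S.card = s ∧ μ = unif s S} →
      {μ : M → ℝ // ∃ S : Finset M, S.card = s' ∧ μ = unif s' S} :=
    fun μ => ⟨unif s' (μ.2.choose)ᶜ, (μ.2.choose)ᶜ, by
      rw [Finset.card_compl, μ.2.choose_spec.1, ← hM]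
      omega, rfl⟩
  have hΦ : ∀ μ ν : {μ : M → ℝ // ∃ S : Finset M, S.card = s ∧ μ = unif s S},
      (s' : ℝ) * W1 ρ (Φ μ).1 (Φ ν).1 = s * W1 ρ μ.1 ν.1 := by
    intro μ ν
    have h1 : (Φ μ).1 = unif s' (μ.2.choose)ᶜ := rfl
    have h2 : (Φ ν).1 = unif s' (ν.2.choose)ᶜ := rfl
    have h3 : W1 ρ μ.1 ν.1 = W1 ρ (unif s μ.2.choose) (unif s ν.2.choose) := by
      rw [← μ.2.choose_spec.2, ← ν.2.choose_spec.2]
    rw [h1, h2, h3, W1_unif ρ hs', W1_unif ρ hs, W1_ind_compl hρ]
  refine ⟨hD1, fun μ => f (Φ μ), r * (s / s'), by positivity, fun μ ν => ?_⟩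
  obtain ⟨h1, h2⟩ := hf (Φ μ) (Φ ν)
  have h3 : W1 ρ (Φ μ).1 (Φ ν).1 = s / s' * W1 ρ μ.1 ν.1 := by
    have := hΦ μ ν
    field_simp
    linarith
  constructor
  · refine le_trans (le_of_eq ?_) h1
    simp only [h3]
    ring
  · refine h2.trans (le_of_eq ?_)
    simp only [h3]
    ring

/-- Complements, for the grid. -/
theorem compl_grid {Δ d s : ℕ} {ρ : Grid Δ d → Grid Δ d → ℝ} (hρ : IsMet ρ) (hs : 1 ≤ s)
    (hs' : s < Δ ^ d) {D : ℝ}
    (hD : EmbedsL1 (fun μ ν : Y Δ d (Δ ^ d - s) => W1 ρ μ.1 ν.1) D) :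
    EmbedsL1 (fun μ ν : Y Δ d s => W1 ρ μ.1 ν.1) D :=
  compl hρ (by omega) (by omega) (by
    rw [Fintype.card_fun, Fintype.card_fin, Fintype.card_fin]
    omega) hD

end Pool.Agent.KhN
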