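import Pool.Agent.KhN.Trans

/-!
# The lower bound for uniform measures on the grid
-/

set_option autoImplicit false

namespace Pool.Agent.KhN

open Finset Pool.Agent.MP_12e089_an

theorem isMet_rho1 {Δ d : ℕ} : IsMet (rho1 : Grid Δ d → Grid Δ d → ℝ) where
  self := fun x => by simp [rho1]
  nonneg := fun x y => Finset.sum_nonneg fun i _ => abs_nonneg _
  symm := fun x y => Finset.sum_congr rfl fun i _ => abs_sub_comm _ _
  tri := fun x y z => by
    unfold rho1
    rw [← Finset.sum_add_distrib]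
    exact Finset.sum_le_sum fun i _ => abs_sub_le _ _ _

theorem rho2_eq {Δ d : ℕ} (x y : Grid Δ d) : rho2 x y =
    dist (WithLp.toLp 2 (fun i => ((x i : ℕ) : ℝ)) : EuclideanSpace ℝ (Fin d))
      (WithLp.toLp 2 (fun i => ((y i : ℕ) : ℝ)) : EuclideanSpace ℝ (Fin d)) := by
  rw [EuclideanSpace.dist_eq]
  unfold rho2
  congr 1
  refine Finset.sum_congr rfl fun i _ => ?_
  rw [Real.dist_eq, sq_abs]

theorem isMet_rho2 {Δ d : ℕ} : IsMet (rho2 : Grid Δ d → Grid Δ d → ℝ) where
  self := fun x => by rw [rho2_eq, dist_self]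
  nonneg := fun x y => by rw [rho2_eq]; exact dist_nonneg
  symm := fun x y => by rw [rho2_eq, rho2_eq, dist_comm]
  tri := fun x y z => by rw [rho2_eq, rho2_eq, rho2_eq]; exact dist_triangle _ _ _

section

variable {Δ : ℕ} (hΔ : 2 ≤ Δ) (n e : ℕ)

/-- The two smallest coordinates. -/
def bit (x : ZMod 2) : Fin Δ := if x = 0 then ⟨0, by omega⟩ else ⟨1, by omega⟩

/-- The cube in the grid. -/
def cu (z : G n) : Grid Δ (n + e) := Fin.append (fun j => bit hΔ (z j)) fun _ => bit hΔ 0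

theorem bit_sub (x y : ZMod 2) : |(((bit hΔ x : Fin Δ) : ℕ) : ℝ) - ((bit hΔ y : Fin Δ) : ℕ)| =
    if x + y ≠ 0 then 1 else 0 := by
  have h : ∀ x y : ZMod 2, (x + y ≠ 0 ↔ ((x = 0 ∧ y ≠ 0) ∨ (x ≠ 0 ∧ y = 0))) := by decide
  unfold bit
  by_cases hx : x = 0
  · by_cases hy : y = 0
    · rw [if_pos hx, if_pos hy, if_neg (by rw [h]; tauto)]
      simp
    · rw [if_pos hx, if_neg hy, if_pos (by rw [h]; tauto)]
      simp
  · by_cases hy : y = 0
    · rw [if_neg hx, if_pos hy, if_pos (by rw [h]; tauto)]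
      simp
    · rw [if_neg hx, if_neg hy, if_neg (by rw [h]; tauto)]
      simp

theorem cu_inj : Function.Injective (cu hΔ n e) := by
  intro z z' h
  funext j
  have h1 := congrFun h (Fin.castAdd e j)
  unfold cu at h1
  rw [Fin.append_left, Fin.append_left] at h1
  have h2 := bit_sub hΔ (z j) (z' j)
  rw [h1, sub_self, abs_zero] at h2
  by_contra hcon
  have h3 : ∀ x y : ZMod 2, x ≠ y → x + y ≠ 0 := by decide
  rw [if_pos (h3 _ _ hcon)] at h2
  exact zero_ne_one h2

theorem rho1_cu (z z' : G n) : rho1 (cu hΔ n e z) (cu hΔ n e z') = wt (z + z') := by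
  unfold rho1 cu
  rw [Fin.sum_univ_add]
  simp only [Fin.append_left, Fin.append_right, sub_self, abs_zero, Finset.sum_const_zero,
    add_zero, bit_sub]
  unfold wt
  rw [Finset.card_filter]
  push_cast
  rfl

theorem rho2_cu (z z' : G n) : rho2 (cu hΔ n e z) (cu hΔ n e z') = Real.sqrt (wt (z + z')) := by
  rw [← rho1_cu hΔ n e]
  unfold rho1 rho2
  congr 1
  refine Finset.sum_congr rfl fun i => ?_
  refine Fin.addCases (fun j _ => ?_) (fun j _ => ?_) i
  · unfold cu
    simp only [Fin.append_left]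
    rw [← sq_abs, bit_sub]
    split_ifs <;> simp
  · unfold cu
    simp only [Fin.append_right, sub_self, abs_zero]
    simp

theorem wt_single (z : G n) (j : Fin n) : wt (z + (z + Pi.single j 1)) = 1 := by
  rw [← add_assoc, add_self_G, zero_add]
  unfold wt
  have h : (univ.filter fun i : Fin n => (Pi.single j (1 : ZMod 2) : G n) i ≠ 0) = {j} := by
    ext i
    simp only [Finset.mem_filter, Finset.mem_univ, true_and, Finset.mem_singleton]
    by_cases hi : i = j
    · subst hi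
      simp
    · simp [hi]
  rw [h, Finset.card_singleton]

end

/-- The arithmetic of the parameters. -/
theorem params {Δ d s : ℕ} (hΔ : 2 ≤ Δ) (hd : 1 ≤ d) (hs : 1 ≤ s) (hs2 : 2 * s ≤ Δ ^ d) :
    ∃ t : ℕ, min (d : ℝ) (Real.logb 2 s) ≤ 16 * (t + 1) ∧
      (1 ≤ t → 16 * t ≤ d ∧ 2 ^ (8 * t) ≤ s ∧ s + 2 ^ (16 * t) ≤ Δ ^ d + 2 ^ (8 * t)) := by
  refine ⟨min (Nat.log 2 s / 8) ((d - 1) / 16), ?_, ?_⟩
  · rcases le_total (Nat.log 2 s / 8) ((d - 1) / 16) with h | h
    · rw [min_eq_left h]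
      refine (min_le_right _ _).trans ?_
      have h1 : s < 2 ^ (8 * (Nat.log 2 s / 8 + 1)) := by
        refine lt_of_lt_of_le (Nat.lt_pow_succ_log_self (b := 2) (by norm_num) s) ?_
        exact Nat.pow_le_pow_right (by norm_num) (by omega)
      have h2 : Real.logb 2 s ≤ ((8 * (Nat.log 2 s / 8 + 1) : ℕ) : ℝ) := by
        have hs0 : (0 : ℝ) < s := by exact_mod_cast hs
        refine (Real.logb_le_iff_le_rpow (b := 2) (by norm_num) hs0).2 ?_
        rw [Real.rpow_natCast]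
        exact_mod_cast h1.le
      refine h2.trans ?_
      push_cast
      have h3 : (0 : ℝ) ≤ ((Nat.log 2 s / 8 : ℕ) : ℝ) := Nat.cast_nonneg _
      linarith
    · rw [min_eq_right h]
      refine (min_le_left _ _).trans ?_
      have h1 : d ≤ 16 * ((d - 1) / 16 + 1) := by omega
      exact_mod_cast h1
  · intro ht
    have h1 : min (Nat.log 2 s / 8) ((d - 1) / 16) ≤ Nat.log 2 s / 8 := min_le_left _ _
    have h2 : min (Nat.log 2 s / 8) ((d - 1) / 16) ≤ (d - 1) / 16 := min_le_right _ _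
    generalize min (Nat.log 2 s / 8) ((d - 1) / 16) = t at *
    refine ⟨by omega, ?_, ?_⟩
    · refine le_trans (Nat.pow_le_pow_right (by norm_num) (by omega : 8 * t ≤ Nat.log 2 s)) ?_
      exact Nat.pow_log_le_self 2 (by omega)
    · have h3 : 2 * 2 ^ (16 * t) ≤ Δ ^ d := by
        calc 2 * 2 ^ (16 * t) = 2 ^ (16 * t + 1) := by rw [pow_succ]; ring
          _ ≤ 2 ^ d := Nat.pow_le_pow_right (by norm_num) (by omega)
          _ ≤ Δ ^ d := Nat.pow_le_pow_left hΔ d
      have h4 : 0 < 2 ^ (8 * t) := by positivity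
      omega

/-- The lower bound for the `ℓ_1` metric. -/
theorem low1 {Δ d s : ℕ} (hΔ : 2 ≤ Δ) (hd : 1 ≤ d) (hs : 1 ≤ s) (hs2 : 2 * s ≤ Δ ^ d) {D : ℝ}
    (hD : EmbedsL1 (fun μ ν : Y Δ d s => W1 rho1 μ.1 ν.1) D) :
    min (d : ℝ) (Real.logb 2 s) / 256 ≤ D := by
  obtain ⟨t, ht1, ht2⟩ := params hΔ hd hs hs2
  have h0 : ((t : ℝ) + 1) / 16 ≤ D := by
    rcases Nat.eq_zero_or_pos t with rfl | ht
    · have := hD.1
      push_cast
      linarith
    · obtain ⟨h1, h2, h3⟩ := ht2 ht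
      obtain ⟨e, rfl⟩ := Nat.exists_eq_add_of_le h1
      have ht0 : (0 : ℝ) < t := by exact_mod_cast ht
      have h4 := low_abs (M := Grid Δ (16 * t + e)) isMet_rho1 ht (R := t + 1) (by positivity)
        (cu hΔ (16 * t) e) (cu_inj hΔ _ e) (fun z j => by rw [rho1_cu, wt_single]; simp)
        (fun z z' h => by
          rw [rho1_cu]
          exact_mod_cast h) h2 (by
            rw [Fintype.card_fun, Fintype.card_fin, Fintype.card_fin]
            exact h3) hD
      refine le_trans ?_ h4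
      rw [div_le_div_iff₀ (by norm_num) (by positivity)]
      nlinarith
  linarith

/-- The lower bound for the `ℓ_2` metric. -/
theorem low2 {Δ d s : ℕ} (hΔ : 2 ≤ Δ) (hd : 1 ≤ d) (hs : 1 ≤ s) (hs2 : 2 * s ≤ Δ ^ d) {D : ℝ}
    (hD : EmbedsL1 (fun μ ν : Y Δ d s => W1 rho2 μ.1 ν.1) D) :
    Real.sqrt (min (d : ℝ) (Real.logb 2 s)) / 64 ≤ D := by
  obtain ⟨t, ht1, ht2⟩ := params hΔ hd hs hs2
  have h0 : Real.sqrt ((t : ℝ) + 1) / 16 ≤ D := by
    rcases Nat.eq_zero_or_pos t with rfl | ht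
    · have := hD.1
      rw [Nat.cast_zero, zero_add, Real.sqrt_one]
      linarith
    · obtain ⟨h1, h2, h3⟩ := ht2 ht
      obtain ⟨e, rfl⟩ := Nat.exists_eq_add_of_le h1
      have ht0 : (0 : ℝ) < t := by exact_mod_cast ht
      have h4 := low_abs (M := Grid Δ (16 * t + e)) isMet_rho2 ht (R := Real.sqrt (t + 1))
        (by positivity)
        (cu hΔ (16 * t) e) (cu_inj hΔ _ e) (fun z j => by rw [rho2_cu, wt_single]; simp)
        (fun z z' h => by
          rw [rho2_cu]
          refine Real.sqrt_le_sqrt ?_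
          exact_mod_cast h) h2 (by
            rw [Fintype.card_fun, Fintype.card_fin, Fintype.card_fin]
            exact h3) hD
      refine le_trans ?_ h4
      rw [div_le_div_iff₀ (by norm_num) (by positivity)]
      have h5 : 0 ≤ Real.sqrt ((t : ℝ) + 1) := Real.sqrt_nonneg _
      nlinarith
  have h1 : Real.sqrt (min (d : ℝ) (Real.logb 2 s)) ≤ 4 * Real.sqrt ((t : ℝ) + 1) := by
    refine (Real.sqrt_le_sqrt ht1).trans (le_of_eq ?_)
    rw [Real.sqrt_mul (by norm_num)]
    congr 1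
    rw [show (16 : ℝ) = 4 ^ 2 by norm_num, Real.sqrt_sq (by norm_num)]
  linarith

end Pool.Agent.KhN
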