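import Mathlib

/-!
# Poincaré inequality on `F_2^m` for a family of generators
-/

set_option autoImplicit false

namespace Pool.Agent.KhN

open Finset MeasureTheory

/-- The group `F_2^m`. -/
abbrev G (m : ℕ) : Type := Fin m → ZMod 2

/-- The sign of an element of `F_2`. -/
def sg (x : ZMod 2) : ℝ := if x = 0 then 1 else -1

theorem sg_add (x y : ZMod 2) : sg (x + y) = sg x * sg y := by
  have h : ∀ x y : ZMod 2, (x + y = 0 ↔ (x = 0 ∧ y = 0) ∨ (x ≠ 0 ∧ y ≠ 0)) := by decide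
  unfold sg
  by_cases hx : x = 0
  · by_cases hy : y = 0
    · simp [hx, hy]
    · simp [hx, hy]
  · by_cases hy : y = 0
    · simp [hx, hy]
    · rw [if_pos ((h x y).2 (Or.inr ⟨hx, hy⟩)), if_neg hx, if_neg hy]
      norm_num

theorem sg_mul_self (x : ZMod 2) : sg x * sg x = 1 := by
  unfold sg
  split_ifs <;> norm_num

/-- The character. -/
def ch {m : ℕ} (A a : G m) : ℝ := sg (A ⬝ᵥ a)

theorem ch_add {m : ℕ} (A a b : G m) : ch A (a + b) = ch A a * ch A b := by
  unfold ch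
  rw [dotProduct_add, sg_add]

theorem ch_sum {m : ℕ} {a : G m} (ha : a ≠ 0) : ∑ A : G m, ch A a = 0 := by
  obtain ⟨i, hi⟩ := Function.ne_iff.1 ha
  have h1 : a i = 1 := by
    have h2 : ∀ x : ZMod 2, x ≠ 0 → x = 1 := by decide
    exact h2 _ hi
  let c : G m := Pi.single i 1
  have h2 : ∑ A : G m, ch A a = ∑ A : G m, ch (A + c) a :=
    (Equiv.sum_comp (Equiv.addRight c) (fun A => ch A a)).symm
  have h3 : ∀ A : G m, ch (A + c) a = - ch A a := by
    intro A
    have h4 : c ⬝ᵥ a = 1 := by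
      rw [single_dotProduct, one_mul, h1]
    unfold ch
    rw [add_dotProduct, sg_add, h4]
    have h5 : sg 1 = -1 := by
      unfold sg
      rw [if_neg (by decide)]
    rw [h5]
    ring
  have h4 : ∑ A : G m, ch (A + c) a = - ∑ A : G m, ch A a := by
    rw [← Finset.sum_neg_distrib]
    exact Finset.sum_congr rfl fun A _ => h3 A
  linarith

theorem ch_zero {m : ℕ} (A : G m) : ch A 0 = 1 := by
  unfold ch sg
  simp

theorem ch_zero' {m : ℕ} (a : G m) : ch 0 a = 1 := by
  unfold ch sg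
  simp

/-- The Fourier coefficient. -/
noncomputable def ft {m : ℕ} (g : G m → ℝ) (A : G m) : ℝ := ∑ a, ch A a * g a

theorem add_self_G {m : ℕ} (a : G m) : a + a = 0 := by
  funext i
  have h : ∀ x : ZMod 2, x + x = 0 := by decide
  exact h _

theorem parseval {m : ℕ} (g : G m → ℝ) : ∑ A, ft g A ^ 2 = 2 ^ m * ∑ a, g a ^ 2 := by
  have h1 : ∀ A, ft g A ^ 2 = ∑ a, ∑ b, ch A (a + b) * (g a * g b) := by
    intro A
    unfold ft
    rw [sq, Finset.sum_mul_sum]
    refine Finset.sum_congr rfl fun a _ => Finset.sum_congr rfl fun b _ => ?_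
    rw [ch_add]
    ring
  simp only [h1]
  rw [Finset.sum_comm, Finset.mul_sum]
  refine Finset.sum_congr rfl fun a _ => ?_
  rw [Finset.sum_comm, Finset.sum_eq_single a]
  · simp only [add_self_G, ch_zero, one_mul, Finset.sum_const, Finset.card_univ, nsmul_eq_mul]
    rw [Fintype.card_fun, ZMod.card, Fintype.card_fin]
    push_cast
    ring
  · intro b _ hb
    rw [← Finset.sum_mul, ch_sum, zero_mul]
    intro h
    apply hb
    have h2 : b = a + (a + b) := by rw [← add_assoc, add_self_G, zero_add]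
    rw [h2, h, add_zero]
  · intro h; exact absurd (Finset.mem_univ _) h

theorem ft_shift {m : ℕ} (g : G m → ℝ) (c A : G m) :
    ft (fun a => g (a + c) - g a) A = (ch A c - 1) * ft g A := by
  unfold ft
  have h1 : ∑ a, ch A a * g (a + c) = ch A c * ∑ a, ch A a * g a := by
    rw [← Equiv.sum_comp (Equiv.addRight c) (fun a => ch A a * g a), Finset.mul_sum]
    refine Finset.sum_congr rfl fun a _ => ?_
    simp only [Equiv.coe_addRight]
    rw [ch_add]
    have h2 : ch A c * ch A c = 1 := sg_mul_self _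
    linear_combination (- ch A a * g (a + c)) * h2
  have h2 : ∑ a, ch A a * (g (a + c) - g a) = ∑ a, ch A a * g (a + c) - ∑ a, ch A a * g a := by
    rw [← Finset.sum_sub_distrib]
    exact Finset.sum_congr rfl fun a _ => by ring
  rw [h2, h1]
  ring

theorem sum_sq_pairs {m : ℕ} (g : G m → ℝ) :
    ∑ a, ∑ b, (g a - g b) ^ 2 = 2 * (∑ A, ft g A ^ 2 - ft g 0 ^ 2) := by
  rw [parseval]
  have h0 : ft g 0 = ∑ a, g a := by
    unfold ft
    simp [ch_zero']
  rw [h0]
  have h1 : ∀ a, ∑ b, (g a - g b) ^ 2 = 2 ^ m * g a ^ 2 - 2 * g a * (∑ b, g b) +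
      ∑ b, g b ^ 2 := by
    intro a
    rw [Finset.mul_sum]
    have h2 : ∀ b, (g a - g b) ^ 2 = g a ^ 2 - 2 * g a * g b + g b ^ 2 := fun b => by ring
    simp only [h2, Finset.sum_add_distrib, Finset.sum_sub_distrib, Finset.sum_const,
      Finset.card_univ, nsmul_eq_mul]
    rw [Fintype.card_fun, ZMod.card, Fintype.card_fin]
    push_cast
    ring
  simp only [h1, Finset.sum_add_distrib, Finset.sum_sub_distrib, Finset.sum_const,
      Finset.card_univ, nsmul_eq_mul, ← Finset.mul_sum, ← Finset.sum_mul]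
  rw [Fintype.card_fun, ZMod.card, Fintype.card_fin]
  push_cast
  ring

/-- The number of generators on which the character `A` is `-1`. -/
def cnt {m n : ℕ} (γ : Fin n → G m) (A : G m) : ℕ := #{j | A ⬝ᵥ γ j ≠ 0}

theorem sum_sg {m n : ℕ} (γ : Fin n → G m) (A : G m) :
    ∑ j, (ch A (γ j) - 1) ^ 2 = 4 * (cnt γ A : ℝ) := by
  unfold cnt
  rw [Finset.card_filter]
  push_cast
  rw [Finset.mul_sum]
  refine Finset.sum_congr rfl fun j _ => ?_
  unfold ch sg
  by_cases h : A ⬝ᵥ γ j = 0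
  · simp [h]
  · simp only [h, if_false, ne_eq, not_false_eq_true, if_true]
    norm_num

/-- The Poincaré inequality for squares. -/
theorem poin_sq {m n : ℕ} (γ : Fin n → G m) (w : ℕ) (hw : ∀ A, A ≠ 0 → w ≤ cnt γ A)
    (g : G m → ℝ) :
    2 * (w : ℝ) * ∑ a, ∑ b, (g a - g b) ^ 2 ≤ 2 ^ m * ∑ j, ∑ a, (g (a + γ j) - g a) ^ 2 := by
  have h1 : 2 ^ m * ∑ j, ∑ a, (g (a + γ j) - g a) ^ 2 = ∑ A, 4 * (cnt γ A : ℝ) * ft g A ^ 2 := by
    rw [Finset.mul_sum]
    have h2 : ∀ j, 2 ^ m * ∑ a, (g (a + γ j) - g a) ^ 2 =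
        ∑ A, (ch A (γ j) - 1) ^ 2 * ft g A ^ 2 := by
      intro j
      rw [← parseval (fun a => g (a + γ j) - g a)]
      refine Finset.sum_congr rfl fun A _ => ?_
      rw [ft_shift, mul_pow]
    simp only [h2]
    rw [Finset.sum_comm]
    refine Finset.sum_congr rfl fun A _ => ?_
    rw [← Finset.sum_mul, sum_sg]
  rw [h1, sum_sq_pairs]
  have h3 : ∑ A, ft g A ^ 2 - ft g 0 ^ 2 = ∑ A, (if A = 0 then 0 else ft g A ^ 2) := by
    have h4 : ft g 0 ^ 2 = ∑ A, (if A = 0 then ft g A ^ 2 else 0) := by simp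
    rw [h4, ← Finset.sum_sub_distrib]
    refine Finset.sum_congr rfl fun A _ => ?_
    split_ifs <;> ring
  rw [h3, Finset.mul_sum, Finset.mul_sum]
  refine Finset.sum_le_sum fun A _ => ?_
  split_ifs with h
  · have : (0 : ℝ) ≤ cnt γ A := Nat.cast_nonneg _
    have h5 : 0 ≤ ft g A ^ 2 := sq_nonneg _
    simp only [mul_zero]
    positivity
  · have h4 : (w : ℝ) ≤ cnt γ A := by exact_mod_cast hw A h
    have h5 : 0 ≤ ft g A ^ 2 := sq_nonneg _
    nlinarith [mul_le_mul_of_nonneg_right h4 h5]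

end Pool.Agent.KhN
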