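import Pool.Agent.KhN.Four

/-!
# Generators of `F_2^m` with few relations: counting
-/

set_option autoImplicit false

namespace Pool.Agent.KhN

open Finset

/-- The Hamming weight. -/
def wt {n : ℕ} (z : G n) : ℕ := #{j | z j ≠ 0}

theorem prod_ite_pow {n : ℕ} (p : Fin n → Prop) [DecidablePred p] (x : ℝ) :
    ∏ j, (if p j then 1 else x) = x ^ #{j | ¬ p j} := by
  rw [Finset.prod_ite, Finset.prod_const_one, one_mul, Finset.prod_const]

theorem card_G (m : ℕ) : Fintype.card (G m) = 2 ^ m := by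
  rw [Fintype.card_fun, ZMod.card, Fintype.card_fin]

/-- The number of vectors of small weight. -/
theorem card_ball (n t : ℕ) : (#{z : G n | wt z ≤ t} : ℝ) ≤ 8 ^ t * (9 / 8) ^ n := by
  have h1 : ∑ z : G n, ((1 : ℝ) / 8) ^ wt z = (9 / 8) ^ n := by
    have h2 : ∀ z : G n, ((1 : ℝ) / 8) ^ wt z = ∏ j, (if z j = 0 then 1 else (1 : ℝ) / 8) := by
      intro z
      rw [prod_ite_pow]
      rfl
    simp only [h2]
    rw [← Fintype.piFinset_univ, ← Finset.prod_univ_sum (fun _ => (Finset.univ : Finset (ZMod 2)))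
      (fun _ x => if x = 0 then 1 else (1 : ℝ) / 8)]
    have h3 : ∑ x : ZMod 2, (if x = 0 then 1 else (1 : ℝ) / 8) = 9 / 8 := by
      have h4 : (Finset.univ : Finset (ZMod 2)) = {0, 1} := by decide
      rw [h4, Finset.sum_pair (by decide)]
      norm_num
    simp only [h3, Finset.prod_const, Finset.card_univ, Fintype.card_fin]
  have h2 : (#{z : G n | wt z ≤ t} : ℝ) * (1 / 8) ^ t ≤ ∑ z : G n, ((1 : ℝ) / 8) ^ wt z := by
    rw [← nsmul_eq_mul, ← Finset.sum_const]
    refine (Finset.sum_le_sum (g := fun z : G n => ((1 : ℝ) / 8) ^ wt z) fun z hz => ?_).trans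
      (Finset.sum_le_sum_of_subset_of_nonneg (Finset.subset_univ _) fun z _ _ => by positivity)
    exact pow_le_pow_of_le_one (by norm_num) (by norm_num) (Finset.mem_filter.1 hz).2
  rw [h1] at h2
  have h3 : (0 : ℝ) < (1 / 8) ^ t := by positivity
  have h4 : (8 : ℝ) ^ t * (1 / 8) ^ t = 1 := by
    rw [← mul_pow]
    norm_num
  calc (#{z : G n | wt z ≤ t} : ℝ) = (#{z : G n | wt z ≤ t} : ℝ) * (1 / 8) ^ t * 8 ^ t := by
        rw [mul_assoc, mul_comm ((1 / 8 : ℝ) ^ t), h4, mul_one]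
    _ ≤ (9 / 8) ^ n * 8 ^ t := mul_le_mul_of_nonneg_right h2 (by positivity)
    _ = 8 ^ t * (9 / 8) ^ n := mul_comm _ _

theorem ch_comm {m : ℕ} (A a : G m) : ch A a = ch a A := by
  unfold ch
  rw [dotProduct_comm]

/-- The generating function of the number of generators on which a character is `-1`. -/
theorem sum_gen {m n : ℕ} {A : G m} (hA : A ≠ 0) :
    ∑ γ : Fin n → G m, ((1 : ℝ) / 8) ^ cnt γ A = (2 ^ m * (9 / 16)) ^ n := by
  have h2 : ∀ γ : Fin n → G m, ((1 : ℝ) / 8) ^ cnt γ A =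
      ∏ j, (if A ⬝ᵥ γ j = 0 then 1 else (1 : ℝ) / 8) := by
    intro γ
    rw [prod_ite_pow]
    rfl
  simp only [h2]
  rw [← Fintype.piFinset_univ, ← Finset.prod_univ_sum (fun _ => (Finset.univ : Finset (G m)))
    (fun _ v => if A ⬝ᵥ v = 0 then 1 else (1 : ℝ) / 8)]
  have h3 : ∑ v : G m, (if A ⬝ᵥ v = 0 then 1 else (1 : ℝ) / 8) = 2 ^ m * (9 / 16) := by
    have h4 : ∀ v : G m, (if A ⬝ᵥ v = 0 then 1 else (1 : ℝ) / 8) = 9 / 16 + 7 / 16 * ch v A := by
      intro v
      rw [ch_comm]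
      unfold ch sg
      split_ifs <;> norm_num
    simp only [h4]
    rw [Finset.sum_add_distrib, ← Finset.mul_sum, ch_sum hA, Finset.sum_const, Finset.card_univ,
      card_G, nsmul_eq_mul]
    push_cast
    ring
  simp only [h3, Finset.prod_const, Finset.card_univ, Fintype.card_fin]

/-- Good generators exist. -/
theorem exists_gen {t : ℕ} (ht : 1 ≤ t) : ∃ γ : Fin (16 * t) → G (8 * t),
    ∀ A, A ≠ 0 → t + 1 ≤ cnt γ A := by
  by_contra hcon
  push Not at hcon
  have h1 : ∀ γ : Fin (16 * t) → G (8 * t), (1 : ℝ) ≤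
      ∑ A : G (8 * t), (if A = 0 then 0 else 8 ^ t * ((1 : ℝ) / 8) ^ cnt γ A) := by
    intro γ
    obtain ⟨A, hA, hAc⟩ := hcon γ
    have h2 : (1 : ℝ) ≤ (if A = 0 then 0 else 8 ^ t * ((1 : ℝ) / 8) ^ cnt γ A) := by
      rw [if_neg hA]
      have h3 : ((1 : ℝ) / 8) ^ t ≤ ((1 : ℝ) / 8) ^ cnt γ A :=
        pow_le_pow_of_le_one (by norm_num) (by norm_num) (by omega)
      have h4 : (8 : ℝ) ^ t * (1 / 8) ^ t = 1 := by
        rw [← mul_pow]
        norm_num
      calc (1 : ℝ) = 8 ^ t * (1 / 8) ^ t := h4.symm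
        _ ≤ _ := mul_le_mul_of_nonneg_left h3 (by positivity)
    refine h2.trans (Finset.single_le_sum (f := fun A : G (8 * t) =>
      (if A = 0 then (0 : ℝ) else 8 ^ t * ((1 : ℝ) / 8) ^ cnt γ A)) (fun B _ => ?_)
        (Finset.mem_univ A))
    split_ifs
    · exact le_rfl
    · positivity
  have h2 : ((2 : ℝ) ^ (8 * t)) ^ (16 * t) ≤ ∑ γ : Fin (16 * t) → G (8 * t),
      ∑ A : G (8 * t), (if A = 0 then 0 else 8 ^ t * ((1 : ℝ) / 8) ^ cnt γ A) := by
    calc ((2 : ℝ) ^ (8 * t)) ^ (16 * t) = ∑ γ : Fin (16 * t) → G (8 * t), (1 : ℝ) := by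
          rw [Finset.sum_const, Finset.card_univ, Fintype.card_fun, card_G, Fintype.card_fin]
          push_cast
          rw [nsmul_eq_mul, mul_one]
          push_cast
          rfl
      _ ≤ _ := Finset.sum_le_sum fun γ _ => h1 γ
  rw [Finset.sum_comm] at h2
  have h3 : ∀ A : G (8 * t), ∑ γ : Fin (16 * t) → G (8 * t),
      (if A = 0 then 0 else 8 ^ t * ((1 : ℝ) / 8) ^ cnt γ A) ≤
        8 ^ t * (2 ^ (8 * t) * (9 / 16)) ^ (16 * t) := by
    intro A
    by_cases hA : A = 0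
    · simp only [hA, if_true, Finset.sum_const_zero]
      positivity
    · simp only [hA, if_false]
      rw [← Finset.mul_sum, sum_gen hA]
  have h4 : ((2 : ℝ) ^ (8 * t)) ^ (16 * t) ≤
      2 ^ (8 * t) * (8 ^ t * (2 ^ (8 * t) * (9 / 16)) ^ (16 * t)) := by
    refine h2.trans ((Finset.sum_le_sum fun A _ => h3 A).trans (le_of_eq ?_))
    rw [Finset.sum_const, Finset.card_univ, card_G, nsmul_eq_mul]
    push_cast
    ring
  have h5 : (2 : ℝ) ^ (8 * t) * (8 ^ t * (2 ^ (8 * t) * (9 / 16)) ^ (16 * t)) =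
      ((2 : ℝ) ^ (8 * t)) ^ (16 * t) * (256 * 8 * (9 / 16) ^ 16) ^ t := by
    rw [mul_pow, pow_mul (9 / 16 : ℝ) 16 t, mul_pow (256 * 8 : ℝ), mul_pow (256 : ℝ),
      pow_mul (2 : ℝ) 8 t]
    norm_num
    ring
  rw [h5] at h4
  have h6 : (256 * 8 * (9 / 16) ^ 16 : ℝ) ^ t < 1 :=
    pow_lt_one₀ (by norm_num) (by norm_num) (by omega)
  have h7 : (0 : ℝ) < ((2 : ℝ) ^ (8 * t)) ^ (16 * t) := by positivity
  nlinarith

/-- The homomorphism given by the generators. -/
def hom {m n : ℕ} (γ : Fin n → G m) (z : G n) : G m := ∑ j, z j • γ j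

theorem hom_add {m n : ℕ} (γ : Fin n → G m) (z z' : G n) :
    hom γ (z + z') = hom γ z + hom γ z' := by
  unfold hom
  rw [← Finset.sum_add_distrib]
  exact Finset.sum_congr rfl fun j _ => by rw [Pi.add_apply, add_smul]

theorem hom_single {m n : ℕ} (γ : Fin n → G m) (j : Fin n) :
    hom γ (Pi.single j 1) = γ j := by
  unfold hom
  rw [Finset.sum_eq_single j]
  · rw [Pi.single_eq_same, one_smul]
  · intro i _ hi
    rw [Pi.single_eq_of_ne hi, zero_smul]
  · intro h; exact absurd (Finset.mem_univ _) h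

theorem ch_hom {m n : ℕ} (γ : Fin n → G m) (A : G m) (z : G n) :
    ch A (hom γ z) = ch z (fun j => A ⬝ᵥ γ j) := by
  unfold ch hom
  congr 1
  rw [dotProduct_sum]
  unfold dotProduct
  refine Finset.sum_congr rfl fun j _ => ?_
  rw [Finset.mul_sum]
  refine Finset.sum_congr rfl fun i _ => ?_
  rw [Pi.smul_apply, smul_eq_mul]
  ring

/-- All fibres have the same size. -/
theorem card_fiber {m n : ℕ} (γ : Fin n → G m) (hγ : ∀ A, A ≠ 0 → 1 ≤ cnt γ A) (a : G m) :
    #{z : G n | hom γ z = a} * 2 ^ m = 2 ^ n := by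
  have h1 : (#{z : G n | hom γ z = a} : ℝ) * 2 ^ m = 2 ^ n := by
    have h2 : ∀ z : G n, (if hom γ z = a then (1 : ℝ) else 0) * 2 ^ m =
        ∑ A : G m, ch A (hom γ z + a) := by
      intro z
      by_cases hz : hom γ z = a
      · rw [if_pos hz, hz, add_self_G]
        simp only [ch_zero, Finset.sum_const, Finset.card_univ, card_G, nsmul_eq_mul]
        push_cast
        ring
      · rw [if_neg hz, ch_sum, zero_mul]
        intro h
        apply hz
        have h3 : hom γ z = (hom γ z + a) + a := by rw [add_assoc, add_self_G, add_zero]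
        rw [h3, h, zero_add]
    rw [Finset.card_filter]
    push_cast
    rw [Finset.sum_mul]
    simp only [h2, ch_add]
    rw [Finset.sum_comm, Finset.sum_eq_single 0]
    · simp only [ch_zero', mul_one, Finset.sum_const, Finset.card_univ, card_G, nsmul_eq_mul]
      push_cast
      ring
    · intro A _ hA
      rw [← Finset.sum_mul]
      have h3 : (fun j => A ⬝ᵥ γ j) ≠ 0 := by
        intro h
        have h4 := hγ A hA
        unfold cnt at h4
        obtain ⟨j, hj⟩ := Finset.card_pos.1 h4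
        exact (Finset.mem_filter.1 hj).2 (congrFun h j)
      simp only [ch_hom, ch_sum h3, zero_mul]
    · intro h; exact absurd (Finset.mem_univ _) h
  exact_mod_cast h1

end Pool.Agent.KhN
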