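import Pool.Agent.KhN.Compl

/-!
# The greedy coupling on a chain of partitions
-/

set_option autoImplicit false

namespace Pool.Agent.KhN

open Finset

variable {M Λ : Type} [Fintype M] [Fintype Λ] [DecidableEq Λ]

/-- The mass of a cell. -/
def cm (l : M → Λ) (μ : M → ℝ) (Q : Λ) : ℝ := ∑ x, if l x = Q then μ x else 0

/-- The mass moved between different cells. -/
def sepm (l : M → Λ) (π : M → M → ℝ) : ℝ := ∑ x, ∑ y, if l x = l y then 0 else π x y

/-- The excess. -/
noncomputable def exc (l : M → Λ) (μ ν : M → ℝ) : ℝ := ∑ Q, max (cm l μ Q - cm l ν Q) 0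

theorem sum_lab (l : M → Λ) (F : Λ → ℝ) (a : M → ℝ) :
    ∑ x, F (l x) * a x = ∑ Q, F Q * cm l a Q := by
  unfold cm
  simp only [Finset.mul_sum]
  rw [Finset.sum_comm]
  refine Finset.sum_congr rfl fun x _ => ?_
  rw [Finset.sum_eq_single (l x)]
  · rw [if_pos rfl]
  · intro Q _ hQ
    rw [if_neg (Ne.symm hQ), mul_zero]
  · intro h; exact absurd (Finset.mem_univ _) h

omit [Fintype Λ] in
theorem cm_nonneg (l : M → Λ) {a : M → ℝ} (ha : ∀ x, 0 ≤ a x) (Q : Λ) : 0 ≤ cm l a Q :=
  Finset.sum_nonneg fun x _ => by split_ifs <;> [exact ha x; exact le_rfl]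

/-- One step of the greedy construction. -/
theorem greedy_step (l : M → Λ) {μ ν : M → ℝ} {π : M → M → ℝ} (h0 : ∀ x y, 0 ≤ π x y)
    (hr : ∀ x, ∑ y, π x y ≤ μ x) (hc : ∀ y, ∑ x, π x y ≤ ν y)
    (hs : ∀ x y, l x ≠ l y → π x y = 0) :
    ∃ π' : M → M → ℝ, (∀ x y, 0 ≤ π' x y) ∧ (∀ x, ∑ y, π' x y ≤ μ x) ∧
      (∀ y, ∑ x, π' x y ≤ ν y) ∧ (∀ x y, l x ≠ l y → π' x y = 0) ∧
      (∑ x, (μ x - ∑ y, π' x y) = exc l μ ν) ∧
      ∀ (l' : M → Λ), sepm l' π' + ∑ x, (μ x - ∑ y, π' x y) ≤
        sepm l' π + ∑ x, (μ x - ∑ y, π x y) := by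
  let a : M → ℝ := fun x => μ x - ∑ y, π x y
  let b : M → ℝ := fun y => ν y - ∑ x, π x y
  have ha : ∀ x, 0 ≤ a x := fun x => sub_nonneg.2 (hr x)
  have hb : ∀ y, 0 ≤ b y := fun y => sub_nonneg.2 (hc y)
  let A : Λ → ℝ := cm l a
  let B : Λ → ℝ := cm l b
  have hA : ∀ Q, 0 ≤ A Q := cm_nonneg l ha
  have hB : ∀ Q, 0 ≤ B Q := cm_nonneg l hb
  have hAB : ∀ Q, A Q - B Q = cm l μ Q - cm l ν Q := by
    intro Q
    have h1 : A Q = cm l μ Q - ∑ x, ∑ y, if l x = Q then π x y else 0 := by
      show cm l a Q = _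
      unfold cm
      rw [← Finset.sum_sub_distrib]
      refine Finset.sum_congr rfl fun x _ => ?_
      split_ifs with h
      · rfl
      · simp
    have h2 : B Q = cm l ν Q - ∑ y, ∑ x, if l y = Q then π x y else 0 := by
      show cm l b Q = _
      unfold cm
      rw [← Finset.sum_sub_distrib]
      refine Finset.sum_congr rfl fun x _ => ?_
      split_ifs with h
      · rfl
      · simp
    have h3 : ∀ x y, (if l x = Q then π x y else 0) = if l y = Q then π x y else 0 := by
      intro x y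
      by_cases hxy : l x = l y
      · rw [hxy]
      · rw [hs x y hxy, ite_self, ite_self]
    have h4 : ∑ y, ∑ x, (if l y = Q then π x y else 0) =
        ∑ x, ∑ y, (if l x = Q then π x y else 0) := by
      rw [Finset.sum_comm]
      exact Finset.sum_congr rfl fun x _ => Finset.sum_congr rfl fun y _ => (h3 x y).symm
    rw [h1, h2, h4]
    ring
  let g : M → M → ℝ := fun x y => if l x = l y then a x * b y / max (A (l x)) (B (l x)) else 0
  have hmax : ∀ Q, 0 ≤ max (A Q) (B Q) := fun Q => (hA Q).trans (le_max_left _ _)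
  have hg0 : ∀ x y, 0 ≤ g x y := by
    intro x y
    show 0 ≤ if l x = l y then a x * b y / max (A (l x)) (B (l x)) else 0
    split_ifs
    · exact div_nonneg (mul_nonneg (ha x) (hb y)) (hmax _)
    · exact le_rfl
  have hgr : ∀ x, ∑ y, g x y = a x * (B (l x) / max (A (l x)) (B (l x))) := by
    intro x
    have h1 : ∀ y, g x y = a x / max (A (l x)) (B (l x)) * (if l y = l x then b y else 0) := by
      intro y
      show (if l x = l y then a x * b y / max (A (l x)) (B (l x)) else 0) = _
      by_cases h : l x = l y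
      · rw [if_pos h, if_pos h.symm]
        ring
      · rw [if_neg h, if_neg (Ne.symm h), mul_zero]
    simp only [h1]
    rw [← Finset.mul_sum]
    show a x / max (A (l x)) (B (l x)) * B (l x) = _
    ring
  have hgc : ∀ y, ∑ x, g x y = b y * (A (l y) / max (A (l y)) (B (l y))) := by
    intro y
    have h1 : ∀ x, g x y = b y / max (A (l y)) (B (l y)) * (if l x = l y then a x else 0) := by
      intro x
      show (if l x = l y then a x * b y / max (A (l x)) (B (l x)) else 0) = _
      by_cases h : l x = l y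
      · rw [if_pos h, if_pos h, h]
        ring
      · rw [if_neg h, if_neg h, mul_zero]
    simp only [h1]
    rw [← Finset.mul_sum]
    show b y / max (A (l y)) (B (l y)) * A (l y) = _
    ring
  have hq1 : ∀ Q, B Q / max (A Q) (B Q) ≤ 1 := fun Q => div_le_one_of_le₀ (le_max_right _ _) (hmax Q)
  have hq2 : ∀ Q, A Q / max (A Q) (B Q) ≤ 1 := fun Q => div_le_one_of_le₀ (le_max_left _ _) (hmax Q)
  have hrow : ∀ x, ∑ y, (π x y + g x y) = (μ x - a x) +
      a x * (B (l x) / max (A (l x)) (B (l x))) := by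
    intro x
    rw [Finset.sum_add_distrib, hgr]
    congr 1
    show _ = μ x - (μ x - ∑ y, π x y)
    ring
  have hcol : ∀ y, ∑ x, (π x y + g x y) = (ν y - b y) +
      b y * (A (l y) / max (A (l y)) (B (l y))) := by
    intro y
    rw [Finset.sum_add_distrib, hgc]
    congr 1
    show _ = ν y - (ν y - ∑ x, π x y)
    ring
  refine ⟨fun x y => π x y + g x y, fun x y => add_nonneg (h0 x y) (hg0 x y), ?_, ?_, ?_, ?_, ?_⟩
  · intro x
    rw [hrow]
    have h1 := mul_le_mul_of_nonneg_left (hq1 (l x)) (ha x)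
    linarith
  · intro y
    rw [hcol]
    have h1 := mul_le_mul_of_nonneg_left (hq2 (l y)) (hb y)
    linarith
  · intro x y hxy
    show π x y + (if l x = l y then a x * b y / max (A (l x)) (B (l x)) else 0) = 0
    rw [hs x y hxy, if_neg hxy, add_zero]
  · have h1 : ∀ x, μ x - ∑ y, (π x y + g x y) =
        (1 - B (l x) / max (A (l x)) (B (l x))) * a x := by
      intro x
      rw [hrow]
      ring
    simp only [h1]
    rw [sum_lab l (fun Q => 1 - B Q / max (A Q) (B Q)) a]
    unfold exc
    refine Finset.sum_congr rfl fun Q _ => ?_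
    rw [← hAB]
    show (1 - B Q / max (A Q) (B Q)) * A Q = _
    rcases le_total (A Q) (B Q) with h | h
    · rw [max_eq_right h, max_eq_right (sub_nonpos.2 h)]
      rcases (hB Q).eq_or_lt with h2 | h2
      · have h3 : A Q = 0 := le_antisymm (h2 ▸ h) (hA Q)
        rw [h3, mul_zero]
      · rw [div_self h2.ne', sub_self, zero_mul]
    · rw [max_eq_left h, max_eq_left (sub_nonneg.2 h)]
      rcases (hA Q).eq_or_lt with h2 | h2
      · have h3 : B Q = 0 := le_antisymm (h2 ▸ h) (hB Q)
        rw [h3, ← h2]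
        ring
      · field_simp
  · intro l'
    have h1 : sepm l' (fun x y => π x y + g x y) = sepm l' π + sepm l' g := by
      unfold sepm
      rw [← Finset.sum_add_distrib]
      refine Finset.sum_congr rfl fun x _ => ?_
      rw [← Finset.sum_add_distrib]
      refine Finset.sum_congr rfl fun y _ => ?_
      split_ifs <;> ring
    have h2 : sepm l' g ≤ ∑ x, ∑ y, g x y := by
      unfold sepm
      refine Finset.sum_le_sum fun x _ => Finset.sum_le_sum fun y _ => ?_
      split_ifs
      · exact hg0 x y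
      · exact le_rfl
    have h3 : ∑ x, (μ x - ∑ y, (π x y + g x y)) = ∑ x, (μ x - ∑ y, π x y) - ∑ x, ∑ y, g x y := by
      rw [← Finset.sum_sub_distrib]
      refine Finset.sum_congr rfl fun x _ => ?_
      rw [Finset.sum_add_distrib]
      ring
    rw [h1, h3]
    linarith

/-- The greedy coupling. -/
theorem greedy (lab : ℕ → M → Λ) (R : ℕ)
    (hnest : ∀ j x y, lab (j + 1) x = lab (j + 1) y → lab j x = lab j y)
    (hlab : ∀ x y, lab 0 x = lab 0 y) {μ ν : M → ℝ} (hμ : ∀ x, 0 ≤ μ x) (hν : ∀ x, 0 ≤ ν x)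
    (hsum : ∑ x, μ x = ∑ x, ν x) :
    ∃ π, Cpl μ ν π ∧ ∀ j, j ≤ R → sepm (lab j) π ≤ exc (lab j) μ ν := by
  have key : ∀ i, i ≤ R → ∃ π : M → M → ℝ, (∀ x y, 0 ≤ π x y) ∧ (∀ x, ∑ y, π x y ≤ μ x) ∧
      (∀ y, ∑ x, π x y ≤ ν y) ∧ (∀ x y, lab (R - i) x ≠ lab (R - i) y → π x y = 0) ∧
      (∑ x, (μ x - ∑ y, π x y) = exc (lab (R - i)) μ ν) ∧
      ∀ j, R - i ≤ j → j ≤ R → sepm (lab j) π + ∑ x, (μ x - ∑ y, π x y) ≤ exc (lab j) μ ν := by
    intro i
    induction i with
    | zero =>
      intro _
      obtain ⟨π, h1, h2, h3, h4, h5, h6⟩ := greedy_step (lab R) (μ := μ) (ν := ν)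
        (π := fun _ _ => 0) (fun _ _ => le_rfl) (fun x => by simpa using hμ x)
        (fun x => by simpa using hν x) (fun _ _ _ => rfl)
      refine ⟨π, h1, h2, h3, h4, h5, fun j hj hj' => ?_⟩
      have hjR : j = R := by omega
      subst hjR
      have h7 : sepm (lab j) π = 0 := by
        unfold sepm
        refine Finset.sum_eq_zero fun x _ => Finset.sum_eq_zero fun y _ => ?_
        split_ifs with h
        · rfl
        · exact h4 x y h
      rw [h7, zero_add, h5]
    | succ i ih =>
      intro hi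
      obtain ⟨π, h1, h2, h3, h4, h5, h6⟩ := ih (by omega)
      have hk : R - i = (R - (i + 1)) + 1 := by omega
      have h4' : ∀ x y, lab (R - (i + 1)) x ≠ lab (R - (i + 1)) y → π x y = 0 := by
        intro x y hxy
        refine h4 x y fun h => hxy ?_
        rw [hk] at h
        exact hnest _ x y h
      obtain ⟨π', g1, g2, g3, g4, g5, g6⟩ := greedy_step (lab (R - (i + 1))) h1 h2 h3 h4'
      refine ⟨π', g1, g2, g3, g4, g5, fun j hj hj' => ?_⟩
      rcases Nat.eq_or_lt_of_le hj with h | h
      · subst h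
        have h7 : sepm (lab (R - (i + 1))) π' = 0 := by
          unfold sepm
          refine Finset.sum_eq_zero fun x _ => Finset.sum_eq_zero fun y _ => ?_
          split_ifs with h
          · rfl
          · exact g4 x y h
        rw [h7, zero_add, g5]
      · exact (g6 (lab j)).trans (h6 j (by omega) hj')
  obtain ⟨π, h1, h2, h3, h4, h5, h6⟩ := key R le_rfl
  rw [Nat.sub_self] at h5 h6
  have hexc : exc (lab 0) μ ν = 0 := by
    unfold exc
    refine Finset.sum_eq_zero fun Q _ => ?_
    have h7 : cm (lab 0) μ Q = cm (lab 0) ν Q := by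
      unfold cm
      by_cases hQ : ∃ x, lab 0 x = Q
      · obtain ⟨x, hx⟩ := hQ
        have h8 : ∀ y, lab 0 y = Q := fun y => (hlab y x).trans hx
        simp only [h8, if_true]
        exact hsum
      · push Not at hQ
        simp only [hQ, if_false]
    rw [h7, sub_self, max_self]
  rw [hexc] at h5
  have hrow : ∀ x, ∑ y, π x y = μ x := by
    intro x
    have h7 := (Finset.sum_eq_zero_iff_of_nonneg (fun x _ => sub_nonneg.2 (h2 x))).1 h5 x
      (Finset.mem_univ x)
    linarith
  have hcol : ∀ y, ∑ x, π x y = ν y := by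
    intro y
    have h8 : ∑ y, (ν y - ∑ x, π x y) = 0 := by
      rw [Finset.sum_sub_distrib, Finset.sum_comm, ← hsum]
      simp only [hrow, sub_self]
    have h7 := (Finset.sum_eq_zero_iff_of_nonneg (fun y _ => sub_nonneg.2 (h3 y))).1 h8 y
      (Finset.mem_univ y)
    linarith
  refine ⟨π, ⟨h1, hrow, hcol⟩, fun j hj => ?_⟩
  have h7 := h6 j (Nat.zero_le _) hj
  rw [h5] at h7
  linarith

/-- The difference of the masses of cells is controlled by any coupling. -/
theorem sum_abs_cm_le (l : M → Λ) {μ ν : M → ℝ} {π : M → M → ℝ} (hπ : Cpl μ ν π) :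
    ∑ Q, |cm l μ Q - cm l ν Q| ≤ 2 * sepm l π := by
  have h1 : ∀ Q, cm l μ Q - cm l ν Q =
      ∑ x, ∑ y, ((if l x = Q then π x y else 0) - (if l y = Q then π x y else 0)) := by
    intro Q
    have h2 : cm l μ Q = ∑ x, ∑ y, if l x = Q then π x y else 0 := by
      unfold cm
      refine Finset.sum_congr rfl fun x _ => ?_
      split_ifs with h
      · exact (hπ.row x).symm
      · simp
    have h3 : cm l ν Q = ∑ x, ∑ y, if l y = Q then π x y else 0 := by
      rw [Finset.sum_comm]
      unfold cm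
      refine Finset.sum_congr rfl fun y _ => ?_
      split_ifs with h
      · exact (hπ.col y).symm
      · simp
    rw [h2, h3, ← Finset.sum_sub_distrib]
    exact Finset.sum_congr rfl fun x _ => by rw [← Finset.sum_sub_distrib]
  have h4 : ∀ Q, |cm l μ Q - cm l ν Q| ≤ ∑ x, ∑ y, (if l x = l y then 0 else
      (if l x = Q then π x y else 0) + (if l y = Q then π x y else 0)) := by
    intro Q
    rw [h1]
    refine (Finset.abs_sum_le_sum_abs _ _).trans (Finset.sum_le_sum fun x _ => ?_)
    refine (Finset.abs_sum_le_sum_abs _ _).trans (Finset.sum_le_sum fun y _ => ?_)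
    have h5 := hπ.nonneg x y
    by_cases h : l x = l y
    · rw [if_pos h, h, sub_self, abs_zero]
    · rw [if_neg h]
      by_cases hx : l x = Q
      · have hy : l y ≠ Q := fun hy => h (hx.trans hy.symm)
        rw [if_pos hx, if_neg hy, sub_zero, abs_of_nonneg h5, add_zero]
      · rw [if_neg hx, zero_sub, abs_neg, zero_add]
        split_ifs
        · rw [abs_of_nonneg h5]
        · rw [abs_zero]
  refine (Finset.sum_le_sum fun Q _ => h4 Q).trans (le_of_eq ?_)
  rw [Finset.sum_comm]
  unfold sepm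
  rw [Finset.mul_sum]
  refine Finset.sum_congr rfl fun x _ => ?_
  rw [Finset.sum_comm, Finset.mul_sum]
  refine Finset.sum_congr rfl fun y _ => ?_
  by_cases h : l x = l y
  · simp [h]
  · simp only [h, if_false]
    rw [Finset.sum_add_distrib]
    simp only [Finset.sum_ite_eq, Finset.mem_univ, if_true]
    ring

end Pool.Agent.KhN
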