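import Pool.Agent.KhN.Four

/-!
# Poincaré inequality on `F_2^m` for functions with values in `L_1`
-/

set_option autoImplicit false

namespace Pool.Agent.KhN

open Finset MeasureTheory

theorem lay_fun (x y : ℝ) :
    (fun t : ℝ => ((if t < x then (1 : ℝ) else 0) - (if t < y then 1 else 0)) ^ 2) =
      (Set.Ico (min x y) (max x y)).indicator 1 := by
  funext t
  by_cases h : t ∈ Set.Ico (min x y) (max x y)
  · rw [Set.indicator_of_mem h]
    obtain ⟨h1, h2⟩ := h
    rcases min_le_iff.1 h1 with h3 | h3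
    · have h4 : t < y := by
        rcases lt_max_iff.1 h2 with h5 | h5
        · exact absurd h5 (not_lt.2 h3)
        · exact h5
      rw [if_neg (not_lt.2 h3), if_pos h4]
      norm_num
    · have h4 : t < x := by
        rcases lt_max_iff.1 h2 with h5 | h5
        · exact h5
        · exact absurd h5 (not_lt.2 h3)
      rw [if_neg (not_lt.2 h3), if_pos h4]
      norm_num
  · rw [Set.indicator_of_notMem h]
    rw [Set.mem_Ico, not_and_or, not_le, not_lt] at h
    rcases h with h | h
    · rw [if_pos (lt_min_iff.1 h).1, if_pos (lt_min_iff.1 h).2]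
      norm_num
    · rw [if_neg (not_lt.2 (max_le_iff.1 h).1), if_neg (not_lt.2 (max_le_iff.1 h).2)]
      norm_num

theorem lay_int (x y : ℝ) :
    Integrable (fun t : ℝ =>
      ((if t < x then (1 : ℝ) else 0) - (if t < y then 1 else 0)) ^ 2) := by
  rw [lay_fun]
  rw [integrable_indicator_iff measurableSet_Ico]
  exact integrableOn_const (by rw [Real.volume_Ico]; exact ENNReal.ofReal_ne_top)

theorem lay (x y : ℝ) :
    ∫ t : ℝ, ((if t < x then (1 : ℝ) else 0) - (if t < y then 1 else 0)) ^ 2 = |x - y| := by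
  rw [lay_fun, integral_indicator_one measurableSet_Ico,
    Real.volume_real_Ico_of_le (min_le_max), max_sub_min_eq_abs]
  exact abs_sub_comm y x

/-- A general principle: an inequality between combinations of terms which holds for an integrable
family of functions holds for the integrals. -/
theorem comb_int {Ω : Type} [MeasurableSpace Ω] {μ : Measure Ω} {m n : ℕ} (γ : Fin n → G m)
    (c C : ℝ) (φ : G m → G m → Ω → ℝ) (hφ : ∀ a b, Integrable (φ a b) μ)
    (h : ∀ᵐ t ∂μ, c * ∑ a, ∑ b, φ a b t ≤ C * ∑ j, ∑ a, φ (a + γ j) a t) :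
    c * ∑ a, ∑ b, ∫ t, φ a b t ∂μ ≤ C * ∑ j, ∑ a, ∫ t, φ (a + γ j) a t ∂μ := by
  have h1 : c * ∑ a, ∑ b, ∫ t, φ a b t ∂μ = ∫ t, c * ∑ a, ∑ b, φ a b t ∂μ := by
    rw [integral_const_mul, integral_finsetSum]
    · congr 1
      refine Finset.sum_congr rfl fun a _ => ?_
      rw [integral_finsetSum]
      exact fun b _ => hφ a b
    · exact fun a _ => integrable_finsetSum _ fun b _ => hφ a b
  have h2 : C * ∑ j, ∑ a, ∫ t, φ (a + γ j) a t ∂μ =
      ∫ t, C * ∑ j, ∑ a, φ (a + γ j) a t ∂μ := by
    rw [integral_const_mul, integral_finsetSum]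
    · congr 1
      refine Finset.sum_congr rfl fun j _ => ?_
      rw [integral_finsetSum]
      exact fun a _ => hφ _ a
    · exact fun j _ => integrable_finsetSum _ fun a _ => hφ _ a
  rw [h1, h2]
  refine integral_mono_ae ?_ ?_ h
  · exact (integrable_finsetSum _ fun a _ => integrable_finsetSum _ fun b _ => hφ a b).const_mul c
  · exact (integrable_finsetSum _ fun j _ => integrable_finsetSum _ fun a _ =>
      hφ _ a).const_mul C

/-- The Poincaré inequality for absolute values. -/
theorem poin_abs {m n : ℕ} (γ : Fin n → G m) (w : ℕ) (hw : ∀ A, A ≠ 0 → w ≤ cnt γ A)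
    (g : G m → ℝ) :
    2 * (w : ℝ) * ∑ a, ∑ b, |g a - g b| ≤ 2 ^ m * ∑ j, ∑ a, |g (a + γ j) - g a| := by
  have h := comb_int (μ := (volume : Measure ℝ)) γ (2 * (w : ℝ)) (2 ^ m)
    (fun a b t => ((if t < g a then (1 : ℝ) else 0) - (if t < g b then 1 else 0)) ^ 2)
    (fun a b => lay_int _ _)
    (Filter.Eventually.of_forall fun t => poin_sq γ w hw (fun a => if t < g a then 1 else 0))
  simpa only [lay] using h

/-- The Poincaré inequality for functions with values in `L_1`. -/
theorem poin_L1 {Ω : Type} [MeasurableSpace Ω] {μ : Measure Ω} {m n : ℕ} (γ : Fin n → G m)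
    (w : ℕ) (hw : ∀ A, A ≠ 0 → w ≤ cnt γ A) (f : G m → Lp ℝ 1 μ) :
    2 * (w : ℝ) * ∑ a, ∑ b, ‖f a - f b‖ ≤ 2 ^ m * ∑ j, ∑ a, ‖f (a + γ j) - f a‖ := by
  have h0 : ∀ a b, ‖f a - f b‖ = ∫ t, |f a t - f b t| ∂μ := by
    intro a b
    rw [L1.norm_eq_integral_norm]
    refine integral_congr_ae ?_
    filter_upwards [Lp.coeFn_sub (f a) (f b)] with t ht
    rw [ht, Pi.sub_apply, Real.norm_eq_abs]
  have h1 : ∀ a b, Integrable (fun t => |f a t - f b t|) μ := by
    intro a b
    exact ((L1.integrable_coeFn (f a)).sub (L1.integrable_coeFn (f b))).abs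
  have h := comb_int (μ := μ) γ (2 * (w : ℝ)) (2 ^ m) (fun a b t => |f a t - f b t|) h1
    (Filter.Eventually.of_forall fun t => poin_abs γ w hw (fun a => f a t))
  simpa only [h0] using h

end Pool.Agent.KhN
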