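import Pool.Agent.KhN.Greedy
import Pool.Agent.MP_12e089_an.Enc
import Pool.Agent.MP_12e089_an.LOne

/-!
# Snowflakes of cut metrics: random nested samples of cuts
-/

set_option autoImplicit false

namespace Pool.Agent.KhN

open Finset Pool.Agent.MP_12e089_an

/-- The partial sums of the series `min (2^(-j)) (2^j v^2)`. -/
theorem geo_series {v : ℝ} (hv : 0 ≤ v) (R : ℕ) :
    ∑ j ∈ range R, min ((1 / 2 : ℝ) ^ (j + 1)) (2 ^ (j + 1) * v ^ 2) ≤ 4 * v := by
  have key : (2 ^ R * v ≤ 1 ∧ ∑ j ∈ range R, min ((1 / 2 : ℝ) ^ (j + 1)) (2 ^ (j + 1) * v ^ 2) ≤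
      2 * 2 ^ R * v ^ 2) ∨ (1 < 2 ^ R * v ∧
        ∑ j ∈ range R, min ((1 / 2 : ℝ) ^ (j + 1)) (2 ^ (j + 1) * v ^ 2) ≤
          4 * v - (1 / 2) ^ R) ∨ (1 < v ∧ ∑ j ∈ range R, min ((1 / 2 : ℝ) ^ (j + 1))
            (2 ^ (j + 1) * v ^ 2) ≤ 1 - (1 / 2) ^ R) := by
    induction R with
    | zero =>
      rcases le_or_gt v 1 with h | h
      · left
        refine ⟨by simpa using h, ?_⟩
        simp only [range_zero, sum_empty, pow_zero, mul_one]
        positivity
      · right; right
        refine ⟨h, ?_⟩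
        simp
    | succ R ih =>
      rw [Finset.sum_range_succ]
      have h2 : (1 / 2 : ℝ) ^ (R + 1) * 2 ^ (R + 1) = 1 := by
        rw [← mul_pow]
        norm_num
      have h3 : (1 / 2 : ℝ) ^ R = 2 * (1 / 2) ^ (R + 1) := by
        rw [pow_succ]
        ring
      have hm1 : min ((1 / 2 : ℝ) ^ (R + 1)) (2 ^ (R + 1) * v ^ 2) ≤ (1 / 2 : ℝ) ^ (R + 1) :=
        min_le_left _ _
      have hm2 : min ((1 / 2 : ℝ) ^ (R + 1)) (2 ^ (R + 1) * v ^ 2) ≤ 2 ^ (R + 1) * v ^ 2 :=
        min_le_right _ _
      rcases ih with ⟨h4, h5⟩ | ⟨h4, h5⟩ | ⟨h4, h5⟩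
      · rcases le_or_gt (2 ^ (R + 1) * v) 1 with h6 | h6
        · left
          refine ⟨h6, ?_⟩
          have h7 : (2 : ℝ) ^ (R + 1) = 2 * 2 ^ R := by rw [pow_succ]; ring
          rw [h7] at hm2 ⊢
          linarith
        · right; left
          refine ⟨h6, ?_⟩
          have h7 : 2 * 2 ^ R * v ^ 2 ≤ 2 * v := by
            have := mul_le_mul_of_nonneg_right h4 (by positivity : 0 ≤ 2 * v)
            nlinarith
          have h8 : (1 / 2 : ℝ) ^ (R + 1) ≤ v := by
            have h9 : (0 : ℝ) < 2 ^ (R + 1) := by positivity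
            by_contra hcon
            push Not at hcon
            have := mul_lt_mul_of_pos_left hcon h9
            nlinarith
          linarith
      · right; left
        have h7 : (2 : ℝ) ^ (R + 1) = 2 * 2 ^ R := by rw [pow_succ]; ring
        refine ⟨by rw [h7]; linarith, ?_⟩
        linarith
      · right; right
        refine ⟨h4, ?_⟩
        linarith
  have h1 : (0 : ℝ) < (1 / 2) ^ R := by positivity
  rcases key with ⟨h4, h5⟩ | ⟨h4, h5⟩ | ⟨h4, h5⟩
  · have h6 : 2 * 2 ^ R * v ^ 2 ≤ 2 * v := by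
      have := mul_le_mul_of_nonneg_right h4 (by positivity : 0 ≤ 2 * v)
      nlinarith
    linarith
  · linarith
  · linarith

section

variable {M Ω : Type} [Fintype Ω]

/-- The number of cuts of level `j`. -/
def nc (j : ℕ) : ℕ := 4 ^ j - 1

theorem nc_succ (j : ℕ) : nc j ≤ nc (j + 1) := by
  unfold nc
  have : 4 ^ j ≤ 4 ^ (j + 1) := Nat.pow_le_pow_right (by norm_num) (by omega)
  omega

theorem nc_le {j R : ℕ} (h : j ≤ R) : nc j ≤ 4 ^ R := by
  unfold nc
  have : 4 ^ j ≤ 4 ^ R := Nat.pow_le_pow_right (by norm_num) h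
  exact (Nat.sub_le _ _).trans this

/-- The label of a point at level `j`. -/
def lb (en : M → Ω → Bool) {K : ℕ} (w : Fin K → Ω) (j : ℕ) (x : M) : Fin K → Bool :=
  fun i => if (i : ℕ) < nc j then en x (w i) else false

omit [Fintype Ω] in
theorem lb_eq_iff (en : M → Ω → Bool) {K : ℕ} (w : Fin K → Ω) (j : ℕ) (x y : M) :
    lb en w j x = lb en w j y ↔ ∀ i : Fin K, (i : ℕ) < nc j → en x (w i) = en y (w i) := by
  unfold lb
  constructor
  · intro h i hi
    have := congrFun h i
    simpa [hi] using this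
  · intro h
    funext i
    by_cases hi : (i : ℕ) < nc j
    · simp [hi, h i hi]
    · simp [hi]

omit [Fintype Ω] in
theorem lb_nest (en : M → Ω → Bool) {K : ℕ} (w : Fin K → Ω) (j : ℕ) (x y : M)
    (h : lb en w (j + 1) x = lb en w (j + 1) y) : lb en w j x = lb en w j y := by
  rw [lb_eq_iff] at h ⊢
  exact fun i hi => h i (hi.trans_le (nc_succ j))

omit [Fintype Ω] in
theorem lb_zero (en : M → Ω → Bool) {K : ℕ} (w : Fin K → Ω) (x y : M) :
    lb en w 0 x = lb en w 0 y := by
  rw [lb_eq_iff]
  intro i hi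
  simp [nc] at hi

/-- The average over the samples. -/
noncomputable def av {K : ℕ} (F : (Fin K → Ω) → ℝ) : ℝ :=
  (∑ w, F w) / (Fintype.card Ω : ℝ) ^ K

theorem av_mono [Nonempty Ω] {K : ℕ} {F F' : (Fin K → Ω) → ℝ} (h : ∀ w, F w ≤ F' w) :
    av F ≤ av F' := by
  unfold av
  exact div_le_div_of_nonneg_right (Finset.sum_le_sum fun w _ => h w) (by positivity)

theorem av_sum {K : ℕ} {ι : Type} (s : Finset ι) (F : ι → (Fin K → Ω) → ℝ) :
    av (fun w => ∑ i ∈ s, F i w) = ∑ i ∈ s, av (F i) := by
  unfold av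
  rw [Finset.sum_comm, Finset.sum_div]

theorem av_mul {K : ℕ} (c : ℝ) (F : (Fin K → Ω) → ℝ) : av (fun w => c * F w) = c * av F := by
  unfold av
  rw [← Finset.mul_sum, mul_div_assoc]

theorem av_const [Nonempty Ω] {K : ℕ} (c : ℝ) : av (fun _ : Fin K → Ω => c) = c := by
  unfold av
  rw [Finset.sum_const, Finset.card_univ, Fintype.card_fun, Fintype.card_fin, nsmul_eq_mul]
  have h : (Fintype.card Ω : ℝ) ≠ 0 := by
    have := Fintype.card_pos (α := Ω)
    positivity
  push_cast
  field_simp

/-- The fraction of cuts which separate two points. -/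
noncomputable def fr (en : M → Ω → Bool) (x y : M) : ℝ :=
  (hammingDist (en x) (en y) : ℝ) / Fintype.card Ω

theorem fr_nonneg (en : M → Ω → Bool) (x y : M) : 0 ≤ fr en x y := by
  unfold fr
  positivity

theorem fr_le_one [Nonempty Ω] (en : M → Ω → Bool) (x y : M) : fr en x y ≤ 1 := by
  unfold fr
  refine div_le_one_of_le₀ ?_ (by positivity)
  exact_mod_cast hammingDist_le_card_fintype

theorem card_lt {K n : ℕ} (h : n ≤ K) : #{i : Fin K | (i : ℕ) < n} = n := by
  have h1 : (Finset.univ.filter fun i : Fin K => (i : ℕ) < n).map Fin.valEmbedding =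
      Finset.range n := by
    ext t
    simp only [Finset.mem_map, Finset.mem_filter, Finset.mem_univ, true_and,
      Fin.valEmbedding_apply, Finset.mem_range]
    constructor
    · rintro ⟨s, hs, rfl⟩
      exact hs
    · intro ht
      exact ⟨⟨t, by omega⟩, ht, rfl⟩
  rw [← Finset.card_map Fin.valEmbedding, h1, Finset.card_range]

/-- The probability that two points are not separated. -/
theorem av_eq [Nonempty Ω] (en : M → Ω → Bool) {K j : ℕ} (hK : nc j ≤ K) (x y : M) :
    av (fun w : Fin K → Ω => if lb en w j x = lb en w j y then 1 else 0) =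
      (1 - fr en x y) ^ nc j := by
  have hN : (Fintype.card Ω : ℝ) ≠ 0 := by
    have := Fintype.card_pos (α := Ω)
    positivity
  unfold av
  have h1 : ∀ w : Fin K → Ω, (if lb en w j x = lb en w j y then (1 : ℝ) else 0) =
      ∏ i : Fin K, (if (i : ℕ) < nc j then (if en x (w i) = en y (w i) then 1 else 0) else 1) := by
    intro w
    by_cases h : lb en w j x = lb en w j y
    · rw [if_pos h]
      rw [lb_eq_iff] at h
      symm
      refine Finset.prod_eq_one fun i _ => ?_
      split_ifs with h2 h3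
      · rfl
      · exact absurd (h i h2) h3
      · rfl
    · rw [if_neg h]
      rw [lb_eq_iff] at h
      push Not at h
      obtain ⟨i, hi, hne⟩ := h
      symm
      refine Finset.prod_eq_zero (Finset.mem_univ i) ?_
      rw [if_pos hi, if_neg hne]
  simp only [h1]
  rw [← Fintype.piFinset_univ, ← Finset.prod_univ_sum (fun _ => (Finset.univ : Finset Ω))
    (fun (i : Fin K) ω => if (i : ℕ) < nc j then (if en x ω = en y ω then (1 : ℝ) else 0) else 1)]
  have h2 : ∀ i : Fin K, ∑ ω : Ω, (if (i : ℕ) < nc j then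
      (if en x ω = en y ω then (1 : ℝ) else 0) else 1) =
        Fintype.card Ω * (if (i : ℕ) < nc j then 1 - fr en x y else 1) := by
    intro i
    split_ifs with h
    · have h3 : ∑ ω : Ω, (if en x ω = en y ω then (1 : ℝ) else 0) =
          Fintype.card Ω - hammingDist (en x) (en y) := by
        unfold hammingDist
        rw [Finset.card_filter]
        push_cast
        rw [eq_sub_iff_add_eq, ← Finset.sum_add_distrib]
        rw [Finset.sum_congr rfl (g := fun _ => (1 : ℝ)) (fun ω _ => by
          by_cases h4 : en x ω = en y ω <;> simp [h4])]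
        simp
      rw [h3]
      unfold fr
      field_simp
    · simp
  simp only [h2]
  rw [Finset.prod_mul_distrib, Finset.prod_const, Finset.card_univ, Fintype.card_fin,
    mul_div_cancel_left₀ _ (pow_ne_zero K hN), Finset.prod_ite, Finset.prod_const_one, mul_one,
    Finset.prod_const, card_lt hK]

/-- The probability that two points are separated. -/
theorem av_ne_le [Nonempty Ω] (en : M → Ω → Bool) {K j : ℕ} (hK : nc j ≤ K) (x y : M) :
    av (fun w : Fin K → Ω => if lb en w j x = lb en w j y then 0 else 1) ≤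
      min 1 (4 ^ j * fr en x y) := by
  have h1 : av (fun w : Fin K → Ω => if lb en w j x = lb en w j y then (0 : ℝ) else 1) =
      1 - (1 - fr en x y) ^ nc j := by
    rw [← av_eq en hK x y]
    have h2 : (fun w : Fin K → Ω => if lb en w j x = lb en w j y then (0 : ℝ) else 1) =
        fun w => 1 - (if lb en w j x = lb en w j y then 1 else 0) := by
      funext w
      split_ifs <;> ring
    rw [h2]
    have h3 : av (fun _ : Fin K → Ω => (1 : ℝ)) = 1 := av_const 1
    unfold av at *
    rw [Finset.sum_sub_distrib, sub_div, h3]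
  rw [h1]
  have h0 := fr_nonneg en x y
  have h2 := fr_le_one en x y
  refine le_min ?_ ?_
  · have : 0 ≤ (1 - fr en x y) ^ nc j := pow_nonneg (by linarith) _
    linarith
  · have h3 : 1 + (nc j : ℝ) * (-fr en x y) ≤ (1 + -fr en x y) ^ nc j :=
      one_add_mul_le_pow (by linarith) _
    have h4 : (nc j : ℝ) ≤ 4 ^ j := by
      have : nc j ≤ 4 ^ j := nc_le le_rfl
      exact_mod_cast this
    have h5 : (1 + -fr en x y) = 1 - fr en x y := by ring
    rw [h5] at h3
    nlinarith [mul_le_mul_of_nonneg_right h4 h0]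

end

end Pool.Agent.KhN
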