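import Pool.Agent.KhN.Lone
import Pool.Agent.KhN.Gen
import Pool.Agent.MP_12e089_an.Wass

/-!
# The lower bound for the distortion, abstractly
-/

set_option autoImplicit false

namespace Pool.Agent.KhN

open Finset Pool.Agent.MP_12e089_an

variable {M : Type} [Fintype M] [DecidableEq M]

/-- The function `ρ` is a (pseudo)metric. -/
structure IsMet (ρ : M → M → ℝ) : Prop where
  self : ∀ x, ρ x x = 0
  nonneg : ∀ x y, 0 ≤ ρ x y
  symm : ∀ x y, ρ x y = ρ y x
  tri : ∀ x y z, ρ x z ≤ ρ x y + ρ y z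

/-- Upper bound by a bijection. -/
theorem W1_le_map {ρ : M → M → ℝ} (hρ : ∀ x y, 0 ≤ ρ x y) {s : ℕ} {S S' : Finset M} (τ : M → M)
    (h1 : ∀ x ∈ S, τ x ∈ S') (h2 : ∀ y ∈ S', ∃ x ∈ S, τ x = y)
    (h3 : ∀ x ∈ S, ∀ x' ∈ S, τ x = τ x' → x = x') :
    W1 ρ (unif s S) (unif s S') ≤ 1 / (s : ℝ) * ∑ x ∈ S, ρ x (τ x) := by
  apply csInf_le
  · refine ⟨0, ?_⟩
    rintro c ⟨π, h0, -, -, rfl⟩
    exact Finset.sum_nonneg fun x _ => Finset.sum_nonneg fun y _ => mul_nonneg (h0 x y) (hρ x y)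
  · refine ⟨fun x y => if x ∈ S ∧ y = τ x then 1 / (s : ℝ) else 0, ?_, ?_, ?_, ?_⟩
    · intro x y
      dsimp only
      split_ifs
      · positivity
      · exact le_refl _
    · intro x
      unfold unif
      by_cases hx : x ∈ S
      · simp [hx]
      · simp [hx]
    · intro y
      unfold unif
      by_cases hy : y ∈ S'
      · obtain ⟨x, hx, hxy⟩ := h2 y hy
        rw [if_pos hy, Finset.sum_eq_single x]
        · exact if_pos ⟨hx, hxy.symm⟩
        · intro x' _ hx'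
          refine if_neg ?_
          rintro ⟨h4, h5⟩
          exact hx' (h3 x' h4 x hx (h5.symm.trans hxy.symm))
        · intro h; exact absurd (Finset.mem_univ _) h
      · rw [if_neg hy]
        refine Finset.sum_eq_zero fun x _ => if_neg ?_
        rintro ⟨h4, h5⟩
        exact hy (h5 ▸ h1 x h4)
    · rw [Finset.mul_sum]
      have h4 : ∀ x, ∑ y, (if x ∈ S ∧ y = τ x then 1 / (s : ℝ) else 0) * ρ x y =
          if x ∈ S then 1 / (s : ℝ) * ρ x (τ x) else 0 := by
        intro x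
        by_cases hx : x ∈ S
        · rw [if_pos hx, Finset.sum_eq_single (τ x)]
          · rw [if_pos ⟨hx, rfl⟩]
          · intro y _ hy
            rw [if_neg (fun h => hy h.2), zero_mul]
          · intro h; exact absurd (Finset.mem_univ _) h
        · simp [hx]
      simp only [h4]
      rw [← Finset.sum_filter, Finset.filter_mem_eq_inter, Finset.univ_inter]

theorem sum_unif {s : ℕ} (hs : 0 < s) {S : Finset M} (hS : S.card = s) :
    ∑ y, unif s S y = 1 := by
  unfold unif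
  rw [← Finset.sum_filter, Finset.filter_mem_eq_inter, Finset.univ_inter, Finset.sum_const, hS,
    nsmul_eq_mul]
  have : (s : ℝ) ≠ 0 := by positivity
  field_simp

theorem sum_unif_mul {s : ℕ} (S : Finset M) (φ : M → ℝ) :
    ∑ y, unif s S y * φ y = 1 / (s : ℝ) * ∑ y ∈ S, φ y := by
  unfold unif
  have h1 : ∀ y, (if y ∈ S then 1 / (s : ℝ) else 0) * φ y =
      if y ∈ S then 1 / (s : ℝ) * φ y else 0 := fun y => by split_ifs <;> simp
  simp only [h1]
  rw [← Finset.sum_filter, Finset.filter_mem_eq_inter, Finset.univ_inter, Finset.mul_sum]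

/-- Weak duality. -/
theorem W1_ge {ρ : M → M → ℝ} {s : ℕ} (hs : 0 < s) {S S' : Finset M} (hS : S.card = s)
    (hS' : S'.card = s) (φ : M → ℝ) (hφ : ∀ x y, φ y - φ x ≤ ρ x y) :
    1 / (s : ℝ) * (∑ y ∈ S', φ y - ∑ x ∈ S, φ x) ≤ W1 ρ (unif s S) (unif s S') := by
  apply le_csInf
  · refine ⟨_, fun x y => unif s S x * unif s S' y, ?_, ?_, ?_, rfl⟩
    · intro x y
      have h1 : 0 ≤ unif s S x := by unfold unif; split_ifs <;> positivity
      have h2 : 0 ≤ unif s S' y := by unfold unif; split_ifs <;> positivity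
      positivity
    · intro x
      rw [← Finset.mul_sum, sum_unif hs hS', mul_one]
    · intro y
      rw [← Finset.sum_mul, sum_unif hs hS, one_mul]
  · rintro c ⟨π, h0, h1, h2, rfl⟩
    rw [mul_sub, ← sum_unif_mul, ← sum_unif_mul]
    have h3 : ∑ y, unif s S' y * φ y = ∑ x, ∑ y, π x y * φ y := by
      rw [Finset.sum_comm]
      refine Finset.sum_congr rfl fun y _ => ?_
      rw [← Finset.sum_mul, h2]
    have h4 : ∑ x, unif s S x * φ x = ∑ x, ∑ y, π x y * φ x := by
      refine Finset.sum_congr rfl fun x _ => ?_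
      rw [← Finset.sum_mul, h1]
    rw [h3, h4, ← Finset.sum_sub_distrib]
    refine Finset.sum_le_sum fun x _ => ?_
    rw [← Finset.sum_sub_distrib]
    refine Finset.sum_le_sum fun y _ => ?_
    rw [← mul_sub]
    exact mul_le_mul_of_nonneg_left (hφ x y) (h0 x y)

section

variable {m n : ℕ} (γ : Fin n → G m) (ι : G n → M) (T : Finset M)

/-- The fibre over `a` together with the fixed points. -/
def St (a : G m) : Finset M := (univ.filter fun z : G n => hom γ z = a).image ι ∪ T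

variable {γ ι T}

omit [Fintype M] in
theorem disj_St (hT : ∀ z, ι z ∉ T) (a : G m) :
    Disjoint ((univ.filter fun z : G n => hom γ z = a).image ι) T := by
  rw [Finset.disjoint_left]
  intro x hx
  obtain ⟨z, -, rfl⟩ := Finset.mem_image.1 hx
  exact hT z

omit [Fintype M] in
theorem card_St (hι : Function.Injective ι) (hT : ∀ z, ι z ∉ T)
    (hγ : ∀ A, A ≠ 0 → 1 ≤ cnt γ A) {q s : ℕ} (hq : q * 2 ^ m = 2 ^ n) (hs : q + #T = s)
    (a : G m) : (St γ ι T a).card = s := by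
  unfold St
  rw [Finset.card_union_of_disjoint (disj_St hT a), Finset.card_image_of_injective _ hι]
  have h1 := card_fiber γ hγ a
  rw [← hq] at h1
  have h2 := Nat.eq_of_mul_eq_mul_right (by positivity) h1
  rw [h2, hs]

omit [Fintype M] in
theorem sum_St (hι : Function.Injective ι) (hT : ∀ z, ι z ∉ T) (a : G m) (φ : M → ℝ) :
    ∑ x ∈ St γ ι T a, φ x = ∑ z ∈ univ.filter (fun z : G n => hom γ z = a), φ (ι z) +
      ∑ x ∈ T, φ x := by
  unfold St
  rw [Finset.sum_union (disj_St hT a), Finset.sum_image (fun x _ y _ h => hι h)]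

/-- Close points. -/
theorem W1_St_le {ρ : M → M → ℝ} (hρ : IsMet ρ) (hι : Function.Injective ι) (hT : ∀ z, ι z ∉ T)
    (h1 : ∀ z j, ρ (ι z) (ι (z + Pi.single j 1)) ≤ 1)
    (hγ : ∀ A, A ≠ 0 → 1 ≤ cnt γ A) {q s : ℕ} (hq : q * 2 ^ m = 2 ^ n) (a : G m) (j : Fin n) :
    W1 ρ (unif s (St γ ι T (a + γ j))) (unif s (St γ ι T a)) ≤ q / (s : ℝ) := by
  classical
  let τ : M → M := fun x => if h : ∃ z, ι z = x then ι (h.choose + Pi.single j 1) else x
  have hτ1 : ∀ z, τ (ι z) = ι (z + Pi.single j 1) := by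
    intro z
    have h : ∃ z', ι z' = ι z := ⟨z, rfl⟩
    have h2 : τ (ι z) = ι (h.choose + Pi.single j 1) := dif_pos h
    rw [h2, hι h.choose_spec]
  have hτ2 : ∀ x ∈ T, τ x = x := by
    intro x hx
    refine dif_neg ?_
    rintro ⟨z, rfl⟩
    exact hT z hx
  have hss : ∀ z : G n, z + Pi.single j 1 + Pi.single j 1 = z := fun z => by
    rw [add_assoc, add_self_G, add_zero]
  have hmem : ∀ (b : G m) (x : M), x ∈ St γ ι T b ↔ (∃ z, hom γ z = b ∧ ι z = x) ∨ x ∈ T := by
    intro b x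
    unfold St
    rw [Finset.mem_union, Finset.mem_image]
    simp only [Finset.mem_filter, Finset.mem_univ, true_and]
  refine (W1_le_map hρ.nonneg τ ?_ ?_ ?_).trans ?_
  · intro x hx
    rw [hmem] at hx ⊢
    rcases hx with ⟨z, hz, rfl⟩ | hx
    · refine Or.inl ⟨z + Pi.single j 1, ?_, (hτ1 z).symm⟩
      rw [hom_add, hom_single, hz, add_assoc, add_self_G, add_zero]
    · rw [hτ2 x hx]
      exact Or.inr hx
  · intro y hy
    rw [hmem] at hy
    rcases hy with ⟨z, hz, rfl⟩ | hy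
    · refine ⟨ι (z + Pi.single j 1), ?_, ?_⟩
      · rw [hmem]
        refine Or.inl ⟨_, ?_, rfl⟩
        rw [hom_add, hom_single, hz]
      · rw [hτ1, hss]
    · exact ⟨y, (hmem _ _).2 (Or.inr hy), hτ2 y hy⟩
  · intro x hx x' hx' h
    rw [hmem] at hx hx'
    rcases hx with ⟨z, -, rfl⟩ | hx
    · rcases hx' with ⟨z', -, rfl⟩ | hx'
      · rw [hτ1, hτ1] at h
        have h2 := hι h
        rw [add_right_cancel h2]
      · rw [hτ1, hτ2 _ hx'] at h
        exact absurd (h ▸ hx') (hT _)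
    · rcases hx' with ⟨z', -, rfl⟩ | hx'
      · rw [hτ1, hτ2 _ hx] at h
        exact absurd (h ▸ hx) (hT _)
      · rwa [hτ2 _ hx, hτ2 _ hx'] at h
  · have hTz : ∑ x ∈ T, ρ x (τ x) = 0 :=
      Finset.sum_eq_zero fun x hx => by rw [hτ2 x hx, hρ.self]
    rw [sum_St hι hT (a + γ j) (fun x => ρ x (τ x)), hTz, add_zero]
    have h2 : #(univ.filter fun z : G n => hom γ z = a + γ j) = q := by
      have h3 := card_fiber γ hγ (a + γ j)
      rw [← hq] at h3
      exact Nat.eq_of_mul_eq_mul_right (by positivity) h3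
    have h3 : ∑ z ∈ univ.filter (fun z : G n => hom γ z = a + γ j), ρ (ι z) (τ (ι z)) ≤ q := by
      refine (Finset.sum_le_card_nsmul _ _ 1 fun z _ => ?_).trans (le_of_eq ?_)
      · rw [hτ1]
        exact h1 z j
      · rw [h2, nsmul_eq_mul, mul_one]
    calc 1 / (s : ℝ) * ∑ z ∈ univ.filter (fun z : G n => hom γ z = a + γ j), ρ (ι z) (τ (ι z))
        ≤ 1 / (s : ℝ) * q := mul_le_mul_of_nonneg_left h3 (by positivity)
      _ = q / (s : ℝ) := by ring

/-- Far points. -/
theorem W1_St_ge {ρ : M → M → ℝ} (hρ : IsMet ρ) (hι : Function.Injective ι) (hT : ∀ z, ι z ∉ T)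
    {t : ℕ} {R : ℝ} (h1 : ∀ z z', t < wt (z + z') → R ≤ ρ (ι z) (ι z'))
    (hγ : ∀ A, A ≠ 0 → 1 ≤ cnt γ A) {q s : ℕ} (hq : q * 2 ^ m = 2 ^ n) (hq0 : 0 < q)
    (hs : q + #T = s)
    (a b : G m) (hab : ∀ z : G n, wt z ≤ t → hom γ z ≠ a + b) :
    q * R / (s : ℝ) ≤ W1 ρ (unif s (St γ ι T a)) (unif s (St γ ι T b)) := by
  have hc : ∀ c : G m, #(univ.filter fun z : G n => hom γ z = c) = q := by
    intro c
    have h3 := card_fiber γ hγ c
    rw [← hq] at h3
    exact Nat.eq_of_mul_eq_mul_right (by positivity) h3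
  have hne : (univ.filter fun z : G n => hom γ z = a).Nonempty := by
    rw [← Finset.card_pos, hc]
    exact hq0
  let φ : M → ℝ := fun x => (univ.filter fun z : G n => hom γ z = a).inf' hne fun z => ρ x (ι z)
  have hφ : ∀ x y, φ y - φ x ≤ ρ x y := by
    intro x y
    obtain ⟨z, hz, hzx⟩ := Finset.exists_mem_eq_inf' hne (fun z => ρ x (ι z))
    have h2 : φ y ≤ ρ y (ι z) := Finset.inf'_le (fun z => ρ y (ι z)) hz
    have h3 : φ x = ρ x (ι z) := hzx
    rw [h3]
    have h4 := hρ.tri y x (ι z)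
    rw [hρ.symm y x] at h4
    linarith
  have hs0 : 0 < s := by omega
  refine le_trans ?_ (W1_ge hs0 (card_St hι hT hγ hq hs a) (card_St hι hT hγ hq hs b) φ hφ)
  rw [sum_St hι hT, sum_St hι hT, add_sub_add_right_eq_sub]
  have h2 : ∑ z ∈ univ.filter (fun z : G n => hom γ z = a), φ (ι z) ≤ 0 := by
    refine Finset.sum_nonpos fun z hz => ?_
    have h3 : φ (ι z) ≤ ρ (ι z) (ι z) := Finset.inf'_le (fun z' => ρ (ι z) (ι z')) hz
    rwa [hρ.self] at h3
  have h3 : (q : ℝ) * R ≤ ∑ z ∈ univ.filter (fun z : G n => hom γ z = b), φ (ι z) := by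
    have h4 : (q : ℝ) * R = #(univ.filter fun z : G n => hom γ z = b) • R := by
      rw [hc, nsmul_eq_mul]
    rw [h4]
    refine Finset.card_nsmul_le_sum _ _ _ fun z hz => ?_
    refine Finset.le_inf' _ _ fun z' hz' => h1 _ _ ?_
    by_contra hcon
    refine hab (z + z') (not_lt.1 hcon) ?_
    rw [hom_add, (Finset.mem_filter.1 hz).2, (Finset.mem_filter.1 hz').2, add_comm]
  rw [div_eq_mul_one_div, mul_comm]
  exact mul_le_mul_of_nonneg_left (by linarith) (by positivity)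

end

/-- The abstract lower bound. -/
theorem low_abs {ρ : M → M → ℝ} (hρ : IsMet ρ) {t : ℕ} (ht : 1 ≤ t) {R : ℝ} (hR : 0 ≤ R)
    (ι : G (16 * t) → M) (hι : Function.Injective ι)
    (h1 : ∀ z j, ρ (ι z) (ι (z + Pi.single j 1)) ≤ 1)
    (h2 : ∀ z z', t < wt (z + z') → R ≤ ρ (ι z) (ι z')) {s : ℕ}
    (hs : 2 ^ (8 * t) ≤ s) (hsM : s + 2 ^ (16 * t) ≤ Fintype.card M + 2 ^ (8 * t)) {D : ℝ}
    (hD : EmbedsL1 (fun μ ν : {μ : M → ℝ // ∃ S : Finset M, S.card = s ∧ μ = unif s S} =>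
      W1 ρ μ.1 ν.1) D) :
    (t + 1) * R / (16 * t) ≤ D := by
  obtain ⟨γ, hγ⟩ := exists_gen ht
  have hγ1 : ∀ A, A ≠ 0 → 1 ≤ cnt γ A := fun A hA => le_trans (by omega) (hγ A hA)
  have hq : 2 ^ (8 * t) * 2 ^ (8 * t) = 2 ^ (16 * t) := by
    rw [← pow_add]
    congr 1
    omega
  -- the fixed points
  obtain ⟨T, hT, hTc⟩ : ∃ T : Finset M, T ⊆ (univ.image ι)ᶜ ∧ #T = s - 2 ^ (8 * t) := by
    refine Finset.exists_subset_card_eq ?_
    rw [Finset.card_compl, Finset.card_image_of_injective _ hι, Finset.card_univ, card_G]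
    omega
  have hT' : ∀ z, ι z ∉ T := by
    intro z hz
    exact (Finset.mem_compl.1 (hT hz)) (Finset.mem_image_of_mem _ (Finset.mem_univ z))
  have hsum : 2 ^ (8 * t) + #T = s := by omega
  have hcard := card_St hι hT' hγ1 hq hsum
  obtain ⟨hD1, f, r, hr, hf⟩ := hD
  let Sm : G (8 * t) → {μ : M → ℝ // ∃ S : Finset M, S.card = s ∧ μ = unif s S} :=
    fun a => ⟨unif s (St γ ι T a), St γ ι T a, hcard a, rfl⟩
  have hp := poin_L1 γ (t + 1) hγ (fun a => f (Sm a))
  have hs0 : (0 : ℝ) < s := by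
    have : 0 < s := lt_of_lt_of_le (by positivity) hs
    exact_mod_cast this
  set lam : ℝ := (2 : ℝ) ^ (8 * t) / s with hlam
  have hlam0 : 0 < lam := by positivity
  -- upper bound for the right side
  have hup : ∀ j a, ‖f (Sm (a + γ j)) - f (Sm a)‖ ≤ D * r * lam := by
    intro j a
    refine ((hf _ _).2).trans (mul_le_mul_of_nonneg_left ?_ (by positivity))
    have h3 := W1_St_le (s := s) hρ hι hT' h1 hγ1 hq a j
    push_cast at h3
    exact h3
  -- lower bound for the left side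
  have hlow : ∀ a, (2 : ℝ) ^ (8 * t) / 2 * (r * (lam * R)) ≤
      ∑ b, ‖f (Sm a) - f (Sm b)‖ := by
    intro a
    let N : Finset (G (8 * t)) := (univ.filter fun z : G (16 * t) => wt z ≤ t).image
      (fun z => a + hom γ z)
    have hN : (#N : ℝ) ≤ 2 ^ (8 * t) / 2 := by
      have h3 : (#N : ℝ) ≤ #{z : G (16 * t) | wt z ≤ t} := by
        exact_mod_cast Finset.card_image_le
      refine (h3.trans (card_ball _ _)).trans ?_
      rw [pow_mul (9 / 8 : ℝ) 16 t, ← mul_pow, pow_mul (2 : ℝ) 8 t]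
      have h4 : ((8 : ℝ) * (9 / 8) ^ 16) ^ t ≤ 128 ^ t :=
        pow_le_pow_left₀ (by norm_num) (by norm_num) t
      have h5 : (128 : ℝ) ^ t * 2 ^ 1 ≤ (2 ^ 8) ^ t := by
        have h6 : ((2 : ℝ) ^ 8) ^ t = 128 ^ t * 2 ^ t := by
          rw [← mul_pow]
          norm_num
        rw [h6]
        exact mul_le_mul_of_nonneg_left (pow_le_pow_right₀ (by norm_num) ht) (by positivity)
      rw [pow_one] at h5
      rw [le_div_iff₀ (by norm_num)]
      exact (mul_le_mul_of_nonneg_right h4 (by norm_num)).trans h5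
    have h3 : ∑ b ∈ Nᶜ, ‖f (Sm a) - f (Sm b)‖ ≤ ∑ b, ‖f (Sm a) - f (Sm b)‖ :=
      Finset.sum_le_sum_of_subset_of_nonneg (Finset.subset_univ _) fun b _ _ => norm_nonneg _
    refine le_trans ?_ h3
    have h4 : #Nᶜ • (r * (lam * R)) ≤ ∑ b ∈ Nᶜ, ‖f (Sm a) - f (Sm b)‖ := by
      refine Finset.card_nsmul_le_sum _ _ _ fun b hb => ?_
      refine le_trans (mul_le_mul_of_nonneg_left ?_ hr.le) (hf (Sm a) (Sm b)).1
      have h5 := W1_St_ge (s := s) hρ hι hT' h2 hγ1 hq (by positivity) hsum a b (by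
        intro z hz h
        apply Finset.mem_compl.1 hb
        refine Finset.mem_image.2 ⟨z, Finset.mem_filter.2 ⟨Finset.mem_univ _, hz⟩, ?_⟩
        rw [h, ← add_assoc, add_self_G, zero_add])
      push_cast at h5
      refine le_trans (le_of_eq ?_) h5
      rw [hlam]
      ring
    refine le_trans ?_ h4
    rw [nsmul_eq_mul]
    refine mul_le_mul_of_nonneg_right ?_ (by positivity)
    rw [Finset.card_compl, card_G, Nat.cast_sub (by
      rw [← card_G]
      exact Finset.card_le_univ N)]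
    push_cast
    linarith
  have h5 : ∑ j : Fin (16 * t), ∑ a : G (8 * t), ‖f (Sm (a + γ j)) - f (Sm a)‖ ≤
      (16 * t) * (2 ^ (8 * t) * (D * r * lam)) := by
    refine (Finset.sum_le_sum fun j _ => Finset.sum_le_sum fun a _ => hup j a).trans (le_of_eq ?_)
    simp only [Finset.sum_const, Finset.card_univ, card_G, Fintype.card_fin, nsmul_eq_mul]
    push_cast
    ring
  have h6 : 2 ^ (8 * t) * ((2 : ℝ) ^ (8 * t) / 2 * (r * (lam * R))) ≤
      ∑ a, ∑ b, ‖f (Sm a) - f (Sm b)‖ := by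
    refine le_trans (le_of_eq ?_) (Finset.sum_le_sum fun a _ => hlow a)
    simp only [Finset.sum_const, Finset.card_univ, card_G, nsmul_eq_mul]
    push_cast
    ring
  push_cast at hp
  have h7 : 2 * ((t : ℝ) + 1) * (2 ^ (8 * t) * ((2 : ℝ) ^ (8 * t) / 2 * (r * (lam * R)))) ≤
      2 ^ (8 * t) * ((16 * t) * (2 ^ (8 * t) * (D * r * lam))) :=
    ((mul_le_mul_of_nonneg_left h6 (by positivity)).trans hp).trans
      (mul_le_mul_of_nonneg_left h5 (by positivity))
  have ht0 : (0 : ℝ) < t := by exact_mod_cast ht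
  have h8 : 0 < (2 : ℝ) ^ (8 * t) * 2 ^ (8 * t) * r * lam := by positivity
  rw [div_le_iff₀ (by positivity)]
  by_contra hcon
  push Not at hcon
  have h9 := mul_lt_mul_of_pos_left hcon h8
  nlinarith
end Pool.Agent.KhN
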