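import Pool.Agent.KhN.Snow

/-!
# The upper bound for snowflakes
-/

set_option autoImplicit false

namespace Pool.Agent.KhN

open Finset Pool.Agent.MP_12e089_an

variable {M Ω : Type} [Fintype Ω] [Fintype M] [DecidableEq M]

/-- The weight of level `j`. -/
noncomputable def rr (L : ℝ) (N : ℕ) (j : ℕ) : ℝ := Real.sqrt (2 * L * N) * (1 / 2) ^ j

theorem rr_nonneg (L : ℝ) (N j : ℕ) : 0 ≤ rr L N j := by
  unfold rr
  positivity

/-- The total weighted difference of the masses of the cells. -/
noncomputable def XX (en : M → Ω → Bool) (L : ℝ) (R : ℕ) (μ ν : M → ℝ)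
    (w : Fin (4 ^ R) → Ω) : ℝ :=
  ∑ j ∈ range R, rr L (Fintype.card Ω) j *
    ∑ Q, |cm (lb en w (j + 1)) μ Q - cm (lb en w (j + 1)) ν Q|

/-- The sample is bad for the pair. -/
def Bad (en : M → Ω → Bool) (L : ℝ) (R : ℕ) (x y : M) (w : Fin (4 ^ R) → Ω) : Prop :=
  ∃ j ≤ R, lb en w j x = lb en w j y ∧
    L * Fintype.card Ω < nc j * (hammingDist (en x) (en y) : ℝ)

omit [Fintype M] [DecidableEq M] in
/-- Probability of a bad sample. -/
theorem av_bad [Nonempty Ω] (en : M → Ω → Bool) (L : ℝ) (R : ℕ) (x y : M) [DecidablePred (Bad en L R x y)] :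
    av (fun w => if Bad en L R x y w then 1 else 0) ≤ Real.exp (-L) := by
  classical
  have hN : (0 : ℝ) < Fintype.card Ω := by
    have := Fintype.card_pos (α := Ω)
    exact_mod_cast this
  by_cases hB : ∃ j, j ≤ R ∧ L * Fintype.card Ω < nc j * (hammingDist (en x) (en y) : ℝ)
  · have h1 := Nat.find_spec hB
    have h2 : ∀ w, (if Bad en L R x y w then (1 : ℝ) else 0) ≤
        if lb en w (Nat.find hB) x = lb en w (Nat.find hB) y then 1 else 0 := by
      intro w
      by_cases hw : Bad en L R x y w
      · obtain ⟨j, hj, hj1, hj2⟩ := id hw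
        have h3 : Nat.find hB ≤ j := Nat.find_min' hB ⟨hj, hj2⟩
        have h4 : ∀ k, k ≤ j → lb en w (j - k) x = lb en w (j - k) y := by
          intro k
          induction k with
          | zero => exact fun _ => hj1
          | succ k ih =>
            intro hk
            have h5 : j - k = j - (k + 1) + 1 := by omega
            have h6 := ih (by omega)
            rw [h5] at h6
            exact lb_nest en w _ x y h6
        have h5 : lb en w (Nat.find hB) x = lb en w (Nat.find hB) y := by
          have := h4 (j - Nat.find hB) (by omega)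
          rwa [Nat.sub_sub_self h3] at this
        rw [if_pos hw, if_pos h5]
      · rw [if_neg hw]
        split_ifs <;> norm_num
    refine (av_mono h2).trans ?_
    rw [av_eq en (nc_le h1.1) x y]
    have h3 : 1 - fr en x y ≤ Real.exp (-fr en x y) := by
      have := Real.add_one_le_exp (-fr en x y)
      linarith
    have h4 : 0 ≤ 1 - fr en x y := by
      have := fr_le_one en x y
      linarith
    refine (pow_le_pow_left₀ h4 h3 _).trans ?_
    rw [← Real.exp_nat_mul]
    apply Real.exp_le_exp.2
    have h5 : L < nc (Nat.find hB) * fr en x y := by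
      unfold fr
      rw [← mul_div_assoc, lt_div_iff₀ hN]
      exact h1.2
    linarith
  · have h2 : ∀ w, (if Bad en L R x y w then (1 : ℝ) else 0) = 0 := by
      intro w
      rw [if_neg]
      rintro ⟨j, hj, -, hj2⟩
      exact hB ⟨j, hj, hj2⟩
    simp only [h2]
    rw [av_const]
    positivity

omit [Fintype M] [DecidableEq M] in
/-- For a good sample the distance is bounded by the weights of the levels which separate the
points. -/
theorem dist_le [Nonempty Ω] (en : M → Ω → Bool) {L : ℝ} (hL : 1 ≤ L) {R : ℕ}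
    (hR : 2 * L * Fintype.card Ω < 4 ^ R) (x y : M) (w : Fin (4 ^ R) → Ω)
    (hw : ¬ Bad en L R x y w) :
    Real.sqrt (hammingDist (en x) (en y)) ≤
      ∑ j ∈ range R, rr L (Fintype.card Ω) j *
        (if lb en w (j + 1) x = lb en w (j + 1) y then 0 else 1) := by
  have hN : (1 : ℝ) ≤ Fintype.card Ω := by
    have := Fintype.card_pos (α := Ω)
    exact_mod_cast this
  have hpos : ∀ j, 0 ≤ rr L (Fintype.card Ω) j *
      (if lb en w (j + 1) x = lb en w (j + 1) y then (0 : ℝ) else 1) := by
    intro j
    refine mul_nonneg (rr_nonneg _ _ _) ?_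
    split_ifs <;> norm_num
  -- a pair which is not separated is close
  have hclose : ∀ j, j ≤ R → lb en w j x = lb en w j y →
      (hammingDist (en x) (en y) : ℝ) * 4 ^ j ≤ 2 * L * Fintype.card Ω := by
    intro j hj h
    have h1 : (nc j : ℝ) * (hammingDist (en x) (en y) : ℝ) ≤ L * Fintype.card Ω := by
      by_contra hcon
      exact hw ⟨j, hj, h, not_le.1 hcon⟩
    have h2 : (nc j : ℝ) = 4 ^ j - 1 := by
      unfold nc
      rw [Nat.cast_sub (Nat.one_le_pow _ _ (by norm_num))]
      push_cast
      rfl
    have h3 : (hammingDist (en x) (en y) : ℝ) ≤ Fintype.card Ω := by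
      exact_mod_cast hammingDist_le_card_fintype
    rw [h2] at h1
    nlinarith
  by_contra hcon
  push Not at hcon
  have hall : ∀ j, j ≤ R → lb en w j x = lb en w j y := by
    intro j
    induction j with
    | zero => exact fun _ => lb_zero en w x y
    | succ j ih =>
      intro hj
      by_contra hne
      have h1 := hclose j (by omega) (ih (by omega))
      have h2 : rr L (Fintype.card Ω) j * (if lb en w (j + 1) x = lb en w (j + 1) y then 0 else 1) ≤
          ∑ j ∈ range R, rr L (Fintype.card Ω) j *
            (if lb en w (j + 1) x = lb en w (j + 1) y then 0 else 1) :=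
        Finset.single_le_sum (f := fun j => rr L (Fintype.card Ω) j *
          (if lb en w (j + 1) x = lb en w (j + 1) y then (0 : ℝ) else 1)) (fun i _ => hpos i)
          (Finset.mem_range.2 (by omega))
      rw [if_neg hne, mul_one] at h2
      have h3 : Real.sqrt (hammingDist (en x) (en y)) ≤ rr L (Fintype.card Ω) j := by
        unfold rr
        rw [Real.sqrt_le_left (by positivity), mul_pow, Real.sq_sqrt (by positivity), ← pow_mul,
          mul_comm j 2, pow_mul]
        have h4 : (1 / 2 : ℝ) ^ 2 = 1 / 4 := by norm_num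
        rw [h4, one_div, inv_pow, ← div_eq_mul_inv, le_div_iff₀ (by positivity)]
        exact h1
      linarith
  have h1 := hclose R le_rfl (hall R le_rfl)
  have h2 : hammingDist (en x) (en y) = 0 := by
    by_contra h
    have h3 : (1 : ℝ) ≤ hammingDist (en x) (en y) := by
      exact_mod_cast Nat.one_le_iff_ne_zero.2 h
    have h4 := mul_le_mul_of_nonneg_right h3 (by positivity : (0 : ℝ) ≤ 4 ^ R)
    linarith
  rw [h2, Nat.cast_zero, Real.sqrt_zero] at hcon
  exact absurd (Finset.sum_nonneg fun j _ => hpos j) (not_le.2 hcon)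

omit [DecidableEq M] in
/-- The upper bound for the average difference. -/
theorem av_XX_le [Nonempty Ω] (en : M → Ω → Bool) {L : ℝ} (hL : 0 ≤ L) (R : ℕ) {μ ν : M → ℝ}
    {π : M → M → ℝ} (hπ : Cpl μ ν π) :
    av (XX en L R μ ν) ≤
      16 * Real.sqrt (2 * L) * cost (fun x y => Real.sqrt (hammingDist (en x) (en y))) π := by
  classical
  have hN : (0 : ℝ) < Fintype.card Ω := by
    have := Fintype.card_pos (α := Ω)
    exact_mod_cast this
  have h1 : ∀ w, XX en L R μ ν w ≤ ∑ j ∈ range R, ∑ x, ∑ y,
      rr L (Fintype.card Ω) j * (2 * π x y) *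
        (if lb en w (j + 1) x = lb en w (j + 1) y then 0 else 1) := by
    intro w
    unfold XX
    refine Finset.sum_le_sum fun j _ => ?_
    refine (mul_le_mul_of_nonneg_left (sum_abs_cm_le _ hπ) (rr_nonneg _ _ _)).trans
      (le_of_eq ?_)
    unfold sepm
    simp only [Finset.mul_sum]
    refine Finset.sum_congr rfl fun x _ => Finset.sum_congr rfl fun y _ => ?_
    split_ifs <;> ring
  refine (av_mono h1).trans ?_
  rw [av_sum]
  simp only [av_sum, av_mul]
  unfold cost
  rw [Finset.mul_sum, Finset.sum_comm]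
  refine Finset.sum_le_sum fun x _ => ?_
  rw [Finset.mul_sum, Finset.sum_comm]
  refine Finset.sum_le_sum fun y _ => ?_
  have h2 : ∀ j ∈ range R, rr L (Fintype.card Ω) j * (2 * π x y) *
      av (fun w : Fin (4 ^ R) → Ω => if lb en w (j + 1) x = lb en w (j + 1) y then 0 else 1) ≤
      4 * Real.sqrt (2 * L * Fintype.card Ω) * π x y *
        min ((1 / 2 : ℝ) ^ (j + 1)) (2 ^ (j + 1) * Real.sqrt (fr en x y) ^ 2) := by
    intro j hj
    have h3 := av_ne_le en (nc_le (Finset.mem_range.1 hj) : nc (j + 1) ≤ 4 ^ R) x y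
    have h4 : 0 ≤ rr L (Fintype.card Ω) j * (2 * π x y) :=
      mul_nonneg (rr_nonneg _ _ _) (mul_nonneg (by norm_num) (hπ.nonneg x y))
    refine (mul_le_mul_of_nonneg_left h3 h4).trans (le_of_eq ?_)
    rw [Real.sq_sqrt (fr_nonneg en x y)]
    unfold rr
    have h5 : (1 / 2 : ℝ) ^ (j + 1) * min 1 (4 ^ (j + 1) * fr en x y) =
        min ((1 / 2 : ℝ) ^ (j + 1)) (2 ^ (j + 1) * fr en x y) := by
      rw [mul_min_of_nonneg _ _ (by positivity), mul_one]
      congr 1
      rw [← mul_assoc, ← mul_pow]
      norm_num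
    rw [← h5, pow_succ]
    ring
  refine (Finset.sum_le_sum h2).trans ?_
  rw [← Finset.mul_sum]
  have h6 := geo_series (Real.sqrt_nonneg (fr en x y)) R
  have h7 : 0 ≤ 4 * Real.sqrt (2 * L * Fintype.card Ω) * π x y :=
    mul_nonneg (by positivity) (hπ.nonneg x y)
  refine (mul_le_mul_of_nonneg_left h6 h7).trans (le_of_eq ?_)
  have h8 : Real.sqrt (2 * L * Fintype.card Ω) * Real.sqrt (fr en x y) =
      Real.sqrt (2 * L) * Real.sqrt (hammingDist (en x) (en y)) := by
    rw [← Real.sqrt_mul (by positivity), ← Real.sqrt_mul (by positivity)]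
    congr 1
    unfold fr
    field_simp
  calc 4 * Real.sqrt (2 * L * Fintype.card Ω) * π x y * (4 * Real.sqrt (fr en x y))
      = 16 * π x y * (Real.sqrt (2 * L * Fintype.card Ω) * Real.sqrt (fr en x y)) := by ring
    _ = _ := by rw [h8]; ring

end Pool.Agent.KhN
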